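import Pool.Agent.P.MP_52b1ec_lc.Defs

namespace Pool.Agent.P.MP_52b1ec_lc

/-- Abelian closed subgroups all of whose elements satisfy `a ^ n = 1`. -/
def AbExp (n : ℕ) : Set (ClosedSubgroup SInf) :=
  {G | (∀ a ∈ G, ∀ b ∈ G, a * b = b * a) ∧ ∀ a ∈ G, a ^ n = 1}

/-- Closed subgroups that satisfy all the laws `w = 1` with `w` in `L`. -/
def Var (L : Set (FreeGroup ℕ)) : Set (ClosedSubgroup SInf) :=
  {G | ∀ w ∈ L, ∀ f : ℕ → SInf, (∀ j, f j ∈ G) → FreeGroup.lift f w = 1}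

end Pool.Agent.P.MP_52b1ec_lc
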