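import Pool.Agent.P.MP_52b1ec_lc.Main
import Pool.Agent.P.MP_52b1ec_lc.X.Defs

namespace Pool.Agent.P.MP_52b1ec_lc

open Topology Filter Set

/-- an element of order `p` -/
noncomputable def cq (p : ℕ) : QZ := if h : 0 < p then (exists_orderOf h).choose else 1

lemma orderOf_cq {p : ℕ} (h : 0 < p) : orderOf (cq p) = p := by
  rw [cq, dif_pos h]
  exact (exists_orderOf h).choose_spec

/-- cyclic atoms: order, level, index -/
abbrev At2 : Type := ℕ × ℕ × ℕ

/-- the filtration of a cyclic atom -/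
noncomputable def N2 (a : At2) (m : ℕ) : Subgroup QZ :=
  if m ≤ a.2.1 then Subgroup.zpowers (cq a.1) else ⊥

def S_LUS : Prop :=
  ∀ (C : Set CS) (T : Type) [Countable T] (τ : C → T), (∀ G H, τ G = τ H → IsoOn C G H) →
    BorelRed (IsoOn C) (fun a b : ℕ => a = b) ∧ BorelRed (IsoOn C) GraphIso

def S_BAS : Prop :=
  ∀ n : ℕ, Squarefree n → ∀ G ∈ AbExp n, ∃ S : Set At2, (∀ a ∈ S, a.1 ∣ n) ∧
    ∃ θ : G.toSubgroup ≃* HS N2 S, ∀ m g, g ∈ stab G.toSubgroup m ↔ (θ g).1 ∈ VV N2 m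

def S_CMB : Prop :=
  ∀ n : ℕ, n ≠ 0 → ∃ (T : Type) (_ : Countable T) (τ : Set At2 → T), ∀ S S' : Set At2,
    (∀ a ∈ S, a.1 ∣ n) → (∀ a ∈ S', a.1 ∣ n) → τ S = τ S' →
    ∃ (γ : ℕ → ℕ) (σ : S ≃ S'), ∀ a : S, a.1.1 = (σ a).1.1 ∧
      ∀ m, (a.1.2.1 < m → (σ a).1.2.1 < γ m) ∧ ((σ a).1.2.1 < m → a.1.2.1 < γ m)

end Pool.Agent.P.MP_52b1ec_lc

namespace Pool.Agent.P.MP_52b1ec_lc

open Topology Filter Set MeasureTheory

lemma lus_code : ∃ c : CS → (ℕ → Bool), Measurable c ∧ Function.Injective c := by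
  classical
  obtain ⟨b, cb, -, hb⟩ := TopologicalSpace.exists_countable_basis SInf
  obtain ⟨e, he⟩ := (cb.insert ∅).exists_eq_range (insert_nonempty _ _)
  have ho : ∀ k, IsOpen (e k) := fun k => by
    have : e k ∈ insert ∅ b := he ▸ mem_range_self k
    rcases this with h | h
    · rw [h]; exact isOpen_empty
    · exact hb.isOpen h
  refine ⟨fun G k => decide (∃ g ∈ G, g ∈ e k), ?_, ?_⟩
  · refine measurable_pi_lambda _ fun k => ?_
    refine measurable_to_bool ?_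
    convert measurableSet_hit (ho k) using 1
    ext G
    simp
  · have key : ∀ G H : CS, (fun k => decide (∃ g ∈ G, g ∈ e k)) =
        (fun k => decide (∃ g ∈ H, g ∈ e k)) → ∀ g ∈ G, g ∈ H := by
      intro G H h g hg
      by_contra hn
      have : (H : Set SInf)ᶜ ∈ 𝓝 g := H.isClosed'.isOpen_compl.mem_nhds hn
      obtain ⟨U, hU, hgU, hsub⟩ := hb.mem_nhds_iff.1 this
      obtain ⟨k, rfl⟩ : U ∈ range e := he ▸ mem_insert_of_mem _ hU
      have h1 := congrFun h k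
      simp only [decide_eq_decide] at h1
      obtain ⟨g', hg', hg'U⟩ := h1.1 ⟨g, hg, hgU⟩
      exact hsub hg'U hg'
    intro G H h
    exact SetLike.ext fun g => ⟨key G H h g, key H G h.symm g⟩

/-- the closed subgroup generated by a sequence -/
def lus_pi (z : ℕ → SInf) : CS :=
  ⟨(Subgroup.closure (range z)).topologicalClosure, Subgroup.isClosed_topologicalClosure _⟩

lemma lus_mem (z : ℕ → SInf) (g : SInf) :
    g ∈ lus_pi z ↔ g ∈ closure (Subgroup.closure (range z) : Set SInf) := Iff.rfl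

lemma lus_surj : Function.Surjective lus_pi := by
  intro G
  have : SecondCountableTopology G.toSubgroup :=
    TopologicalSpace.Subtype.secondCountableTopology (G.toSubgroup : Set SInf)
  have hd := TopologicalSpace.denseRange_denseSeq G.toSubgroup
  refine ⟨fun n => (TopologicalSpace.denseSeq G.toSubgroup n).1, SetLike.ext fun g => ?_⟩
  rw [lus_mem]
  constructor
  · intro hg
    refine closure_minimal (t := (G : Set SInf)) ?_ G.isClosed' hg
    refine (Subgroup.closure_le G.toSubgroup).2 ?_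
    rintro _ ⟨n, rfl⟩
    exact (TopologicalSpace.denseSeq G.toSubgroup n).2
  · intro hg
    have h1 := image_closure_subset_closure_image (continuous_subtype_val
      (p := fun x => x ∈ G.toSubgroup)) (mem_image_of_mem _ (hd ⟨g, hg⟩))
    refine closure_mono ?_ h1
    rintro _ ⟨_, ⟨n, rfl⟩, rfl⟩
    exact Subgroup.subset_closure ⟨n, rfl⟩

lemma lus_word (z0 : ℕ → SInf) (g : SInf) (hg : g ∈ Subgroup.closure (range z0)) :
    ∃ F : (ℕ → SInf) → SInf, Continuous F ∧ F z0 = g ∧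
      ∀ z, F z ∈ Subgroup.closure (range z) := by
  induction hg using Subgroup.closure_induction with
  | mem x hx =>
    obtain ⟨n, rfl⟩ := hx
    exact ⟨fun z => z n, continuous_apply n, rfl, fun z => Subgroup.subset_closure ⟨n, rfl⟩⟩
  | one => exact ⟨fun _ => 1, continuous_const, rfl, fun z => one_mem _⟩
  | mul x y _ _ hx hy =>
    obtain ⟨F, hF, rfl, hF'⟩ := hx
    obtain ⟨E, hE, rfl, hE'⟩ := hy
    exact ⟨fun z => F z * E z, hF.mul hE, rfl, fun z => mul_mem (hF' z) (hE' z)⟩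
  | inv x _ hx =>
    obtain ⟨F, hF, rfl, hF'⟩ := hx
    exact ⟨fun z => (F z)⁻¹, hF.inv, rfl, fun z => inv_mem (hF' z)⟩

lemma lus_open {U : Set SInf} (hU : IsOpen U) : IsOpen {z | ∃ g ∈ lus_pi z, g ∈ U} := by
  rw [isOpen_iff_mem_nhds]
  rintro z0 ⟨g, hg, hgU⟩
  obtain ⟨g', hg'U, hg'⟩ := mem_closure_iff.1 ((lus_mem _ _).1 hg) U hU hgU
  obtain ⟨F, hF, rfl, hF'⟩ := lus_word z0 g' hg'
  refine mem_of_superset ((hU.preimage hF).mem_nhds hg'U) fun z hz => ?_
  exact ⟨F z, (lus_mem _ _).2 (subset_closure (hF' z)), hz⟩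

lemma lus_an {c : CS → ℕ → Bool} (hc : Measurable c) (M : CS) :
    AnalyticSet (c '' {G | TopIso G M}) := by
  borelize SInf
  obtain ⟨-, B, hB, hE⟩ := isAnalyticEqv_isoOn univ
  have hp : Measurable lus_pi := measurable_CS fun U hU => (lus_open hU).measurableSet
  have hq : Measurable (fun p : (ℕ → SInf) × (ℕ → ℕ) => lus_pi p.1) := hp.comp measurable_fst
  let φ : (ℕ → SInf) × (ℕ → ℕ) → (↥(univ : Set CS) × ↥(univ : Set CS)) × (ℕ → ℕ) :=
    fun p => ((⟨lus_pi p.1, trivial⟩, ⟨M, trivial⟩), p.2)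
  have hφ : Measurable φ :=
    ((hq.subtype_mk).prodMk measurable_const).prodMk measurable_snd
  have := (hφ hB).analyticSet_image
    (f := fun p : (ℕ → SInf) × (ℕ → ℕ) => c (lus_pi p.1)) (hc.comp hq)
  convert this using 1
  ext y
  constructor
  · rintro ⟨G, hG, rfl⟩
    obtain ⟨z, rfl⟩ := lus_surj G
    obtain ⟨w, hw⟩ := (hE ⟨_, trivial⟩ ⟨M, trivial⟩).1 hG
    exact ⟨(z, w), hw, rfl⟩
  · rintro ⟨⟨z, w⟩, hw, rfl⟩
    exact ⟨_, (hE ⟨_, trivial⟩ ⟨M, trivial⟩).2 ⟨w, hw⟩, rfl⟩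

lemma lus_class (C : Set CS) (T : Type) [Countable T] (τ : C → T)
    (hτ : ∀ G H, τ G = τ H → IsoOn C G H) (G0 : CS) :
    MeasurableSet {G : C | TopIso G.1 G0} := by
  obtain ⟨c, hc, hci⟩ := lus_code
  let ι : Type := {t : T // ∃ G : C, τ G = t ∧ ¬ TopIso G.1 G0}
  have hA := lus_an hc G0
  have hA' : AnalyticSet (⋃ t : ι, c '' {G | TopIso G t.2.choose.1}) :=
    AnalyticSet.iUnion fun t => lus_an hc _
  obtain ⟨u, h1, h2, hu⟩ := hA.measurablySeparable hA' (by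
    rw [disjoint_iUnion_right]
    intro t
    rw [Set.disjoint_left]
    rintro _ ⟨G, hG, rfl⟩ ⟨H, hH, hGH⟩
    obtain rfl := hci hGH
    exact t.2.choose_spec.2 (topIso_equivalence.trans (topIso_equivalence.symm hH) hG))
  have := (hc.comp (measurable_subtype_coe (p := fun G => G ∈ C))) hu
  convert this using 1
  ext G
  constructor
  · intro hG
    exact h1 ⟨G.1, hG, rfl⟩
  · intro hG
    by_contra hn
    let t : ι := ⟨τ G, G, rfl, hn⟩
    refine Set.disjoint_left.1 h2 (mem_iUnion.2 ⟨t, G.1, ?_, rfl⟩) hG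
    exact hτ G _ t.2.choose_spec.1.symm

lemma lus_nat (C : Set CS) (T : Type) [Countable T] (τ : C → T)
    (hτ : ∀ G H, τ G = τ H → IsoOn C G H) : BorelRed (IsoOn C) (fun a b : ℕ => a = b) := by
  classical
  obtain ⟨enc, henc⟩ := Countable.exists_injective_nat T
  have hex : ∀ G : C, ∃ n, ∃ H : C, enc (τ H) = n ∧ TopIso G.1 H.1 :=
    fun G => ⟨_, G, rfl, topIso_equivalence.refl _⟩
  refine ⟨fun G => Nat.find (hex G), measurable_find hex fun k => ?_, fun G G' => ⟨?_, ?_⟩⟩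
  · by_cases h : ∃ H : C, enc (τ H) = k
    · obtain ⟨H0, rfl⟩ := h
      convert lus_class C T τ hτ H0.1 using 1
      ext G
      constructor
      · rintro ⟨H, h1, h2⟩
        exact topIso_equivalence.trans h2 (hτ _ _ (henc h1))
      · intro h2
        exact ⟨H0, rfl, h2⟩
    · convert MeasurableSet.empty using 1
      ext G
      constructor
      · rintro ⟨H, h1, -⟩
        exact h ⟨H, h1⟩
      · exact False.elim
  · intro h
    refine Nat.find_congr' fun {n} => ⟨?_, ?_⟩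
    · rintro ⟨H, h1, h2⟩
      exact ⟨H, h1, topIso_equivalence.trans (topIso_equivalence.symm h) h2⟩
    · rintro ⟨H, h1, h2⟩
      exact ⟨H, h1, topIso_equivalence.trans h h2⟩
  · intro h
    obtain ⟨H, h1, h2⟩ := Nat.find_spec (hex G)
    obtain ⟨H', h1', h2'⟩ := Nat.find_spec (hex G')
    have : τ H = τ H' := henc (h1.trans (h.trans h1'.symm))
    exact topIso_equivalence.trans h2
      (topIso_equivalence.trans (hτ _ _ this) (topIso_equivalence.symm h2'))

/-- a complete graph on `k + 2` vertices together with isolated vertices -/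
def lus_gr (k : ℕ) : SimpleGraph ℕ where
  Adj i j := i ≠ j ∧ i ≤ k + 1 ∧ j ≤ k + 1
  symm := ⟨fun _ _ h => ⟨h.1.symm, h.2.2, h.2.1⟩⟩
  loopless := ⟨fun _ h => h.1 rfl⟩

lemma lus_le {k l : ℕ} (e : lus_gr k ≃g lus_gr l) : k ≤ l := by
  have : (Finset.range (k + 2)).card ≤ (Finset.range (l + 2)).card := by
    refine Finset.card_le_card_of_injOn e (fun i hi => ?_) e.injective.injOn
    have hi' : i < k + 2 := by simpa using hi
    have ha : (lus_gr k).Adj i (if i = 0 then 1 else 0) := by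
      refine ⟨?_, ?_, ?_⟩ <;> (try split_ifs) <;> omega
    have := (e.map_adj_iff.2 ha).2.1
    simp only [Finset.coe_range, mem_Iio]
    omega
  simpa using this

theorem p_LUS : S_LUS := by
  intro C T _ τ hτ
  refine ⟨lus_nat C T τ hτ, ?_⟩
  obtain ⟨f, hf, h⟩ := lus_nat C T τ hτ
  refine ⟨fun G => lus_gr (f G), (measurable_from_nat (f := lus_gr)).comp hf, fun G H => ?_⟩
  rw [h]
  constructor
  · intro e
    simp only [e]
    exact ⟨SimpleGraph.Iso.refl⟩
  · rintro ⟨e⟩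
    exact le_antisymm (lus_le e) (lus_le e.symm)

end Pool.Agent.P.MP_52b1ec_lc

namespace Pool.Agent.P.MP_52b1ec_lc

open Topology Filter Set

lemma bas_simple {n : ℕ} (M : Type) [AddCommGroup M] [Module (ZMod n) M]
    [IsSimpleModule (ZMod n) M] : ∃ p : ℕ, p ∣ n ∧ ∃ ψ : M →+ Additive QZ, Function.Injective ψ ∧
      ∀ y, y ∈ range ψ ↔ y.toMul ∈ Subgroup.zpowers (cq p) := by
  have := IsSimpleModule.nontrivial (ZMod n) M
  have : IsSimpleAddGroup M := ⟨fun H _ =>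
    (eq_bot_or_eq_top (AddSubgroup.toZModSubmodule n H)).imp
      (fun h => by simpa using h) fun h => by simpa using h⟩
  have hp : (Nat.card M).Prime := IsSimpleAddGroup.prime_card
  have := Fact.mk hp
  refine ⟨Nat.card M, ?_, ?_⟩
  · obtain ⟨x, hx⟩ := exists_ne (0 : M)
    rw [← addOrderOf_eq_prime (p := Nat.card M) card_nsmul_eq_zero' hx,
      addOrderOf_dvd_iff_nsmul_eq_zero, ← Nat.cast_smul_eq_nsmul (ZMod n), ZMod.natCast_self,
      zero_smul]
  · have e : M ≃+ Additive (Subgroup.zpowers (cq (Nat.card M))) :=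
      addEquivOfPrimeCardEq rfl ((Nat.card_zpowers _).trans (orderOf_cq hp.pos))
    refine ⟨(Subgroup.subtype _).toAdditive.comp e.toAddMonoidHom,
      Subtype.val_injective.comp e.injective, fun y => ⟨?_, fun hy => ?_⟩⟩
    · rintro ⟨x, rfl⟩
      exact (e x).toMul.2
    · exact ⟨e.symm (Additive.ofMul ⟨_, hy⟩), by simp⟩

lemma bas_ss {n : ℕ} (K : Type) [AddCommGroup K] [Module (ZMod n) K]
    [IsSemisimpleModule (ZMod n) K] [Countable K] :
    ∃ (S : Set (ℕ × ℕ)) (χ : ℕ × ℕ → K →+ Additive QZ), (∀ a ∈ S, a.1 ∣ n) ∧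
      (∀ a ∉ S, χ a = 0) ∧ (∀ a x, (χ a x).toMul ∈ Subgroup.zpowers (cq a.1)) ∧
      (∀ x, {a | χ a x ≠ 0}.Finite) ∧ (∀ x, (∀ a, χ a x = 0) → x = 0) ∧
      ∀ c : ℕ × ℕ → QZ, (∀ a ∉ S, c a = 1) → (∀ a, c a ∈ Subgroup.zpowers (cq a.1)) →
        {a | c a ≠ 1}.Finite → ∃ x, ∀ a, (χ a x).toMul = c a := by
  classical
  obtain ⟨s, e, -, hs⟩ := IsSemisimpleModule.exists_linearEquiv_dfinsupp (ZMod n) K
  choose p hp ψ hψ hr using fun m : s => bas_simple (n := n) m.1
  choose x hx using fun m : s =>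
    @exists_ne _ (IsSimpleModule.nontrivial (ZMod n) m.1) (0 : m.1)
  have : Countable s := Function.Injective.countable
    (f := fun m : s => e.symm (DFinsupp.single m (x m))) fun m m' h => by
      by_contra hne
      have := DFunLike.congr_fun (e.symm.injective h) m
      rw [DFinsupp.single_eq_same, DFinsupp.single_eq_of_ne hne] at this
      exact hx m this
  obtain ⟨cd, hcd⟩ := Countable.exists_injective_nat s
  have hι : Function.Injective fun m : s => (p m, cd m) := fun m m' h => hcd (congrArg Prod.snd h)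
  let χ : s → K →+ Additive QZ := fun m =>
    (ψ m).comp ((DFinsupp.lapply m).comp e.toLinearMap).toAddMonoidHom
  have hχ : ∀ m y, χ m y = ψ m (e y m) := fun _ _ => rfl
  have h0 : ∀ a ∉ range fun m : s => (p m, cd m),
      Function.extend (fun m : s => (p m, cd m)) χ 0 a = 0 := fun a ha =>
    Function.extend_apply' _ _ _ ha
  refine ⟨range fun m : s => (p m, cd m), Function.extend (fun m : s => (p m, cd m)) χ 0,
    ?_, h0, fun a y => ?_, fun y => ?_, fun y hy => ?_, fun c c1 c2 c3 => ?_⟩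
  · rintro _ ⟨m, rfl⟩
    exact hp m
  · by_cases ha : a ∈ range fun m : s => (p m, cd m)
    · obtain ⟨m, rfl⟩ := ha
      rw [hι.extend_apply]
      exact (hr m _).1 ⟨_, rfl⟩
    · simp [h0 a ha]
  · refine ((e y).support.finite_toSet.image fun m : s => (p m, cd m)).subset fun a ha => ?_
    by_cases hb : a ∈ range fun m : s => (p m, cd m)
    · obtain ⟨m, rfl⟩ := hb
      refine ⟨m, ?_, rfl⟩
      rw [mem_ofPred_eq, hι.extend_apply, hχ] at ha
      simpa using fun h => ha (by rw [h, map_zero])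
    · simp [h0 a hb] at ha
  · refine e.injective (DFinsupp.ext fun m => hψ m ?_)
    have := hy (p m, cd m)
    rw [hι.extend_apply, hχ] at this
    simpa using this
  · choose z hz using fun m : s => (hr m (Additive.ofMul (c (p m, cd m)))).2 (c2 (p m, cd m))
    have hf : {m | z m ≠ 0}.Finite := (c3.preimage hι.injOn).subset fun m hm h =>
      hm (hψ m (by rw [hz, h, map_zero]; rfl))
    refine ⟨e.symm (DFinsupp.mk hf.toFinset fun m => z m.1), fun a => ?_⟩
    by_cases hb : a ∈ range fun m : s => (p m, cd m)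
    · obtain ⟨m, rfl⟩ := hb
      rw [hι.extend_apply, hχ, e.apply_symm_apply, DFinsupp.mk_apply]
      split_ifs with h
      · rw [hz]; rfl
      · have : z m = 0 := by simpa using h
        rw [← this, hz]; rfl
    · simp [h0 a hb, c1 a hb]

lemma bas_level {n : ℕ} (hn : Squarefree n) {H T : Type} [Group H] (hc : ∀ a b : H, a * b = b * a)
    (he : ∀ a : H, a ^ n = 1) (V W : Subgroup H) [Countable T] (t : H → T)
    (ht : ∀ x y, t x = t y → x⁻¹ * y ∈ W) :
    ∃ (S : Set (ℕ × ℕ)) (χ : ℕ × ℕ → H →* QZ), (∀ a ∈ S, a.1 ∣ n) ∧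
      (∀ a ∉ S, ∀ x, χ a x = 1) ∧ (∀ a x, χ a x ∈ Subgroup.zpowers (cq a.1)) ∧
      (∀ x, {a | χ a x ≠ 1}.Finite) ∧ (∀ a, ∀ x ∈ W, χ a x = 1) ∧
      (∀ x ∈ V, (∀ a, χ a x = 1) → x ∈ W) ∧
      ∀ c : ℕ × ℕ → QZ, (∀ a ∉ S, c a = 1) → (∀ a, c a ∈ Subgroup.zpowers (cq a.1)) →
        {a | c a ≠ 1}.Finite → ∃ x ∈ V, ∀ a, χ a x = c a := by
  let : CommGroup H := { ‹Group H› with mul_comm := hc }
  let : Module (ZMod n) (Additive H) := AddCommGroup.zmodModule (n := n) he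
  have := NeZero.mk hn.ne_zero
  have := Fact.mk hn
  have := IsArtinianRing.isSemisimpleRing_of_isReduced (ZMod n)
  let W' : Submodule (ZMod n) (Additive H) := AddSubgroup.toZModSubmodule n W.toAddSubgroup
  let V' : Submodule (ZMod n) (Additive H) := AddSubgroup.toZModSubmodule n V.toAddSubgroup
  have : Countable (Additive H ⧸ W') := Function.Injective.countable
    (f := fun q : Additive H ⧸ W' => t q.out.toMul) fun q q' h => by
      rw [← q.out_eq, ← q'.out_eq]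
      exact (Submodule.Quotient.eq' W').2 (ht _ _ h)
  obtain ⟨C, hC⟩ := exists_isCompl (V'.map W'.mkQ)
  obtain ⟨S, χ, h1, h2, h3, h4, h5, h6⟩ := bas_ss (n := n) (V'.map W'.mkQ)
  let κ := ((V'.map W'.mkQ).projectionOnto C hC).comp W'.mkQ
  have hκ : ∀ x ∈ V, (κ (Additive.ofMul x)).1 = W'.mkQ (Additive.ofMul x) := fun x hx =>
    congrArg Subtype.val (Submodule.projectionOnto_apply_of_mem_left hC ⟨_, hx, rfl⟩)
  refine ⟨S, fun a => MonoidHom.toAdditive.symm ((χ a).comp κ.toAddMonoidHom), h1,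
    fun a ha x => by simp [h2 a ha], fun a x => h3 a _, fun x => h4 (κ (Additive.ofMul x)),
    fun a x hx => ?_, fun x hx h => ?_, fun c c1 c2 c3 => ?_⟩
  · have : W'.mkQ (Additive.ofMul x) = 0 := (Submodule.Quotient.mk_eq_zero W').2 hx
    show (χ a ((V'.map W'.mkQ).projectionOnto C hC (W'.mkQ (Additive.ofMul x)))).toMul = 1
    rw [this, map_zero, map_zero, toMul_zero]
  · have := hκ x hx
    rw [h5 (κ (Additive.ofMul x)) h] at this
    exact (Submodule.Quotient.mk_eq_zero W').1 this.symm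
  · obtain ⟨⟨_, x, hx, rfl⟩, h⟩ := h6 c c1 c2 c3
    exact ⟨x.toMul, hx, fun a =>
      (congrArg (fun y => (χ a y).toMul) (Subtype.ext (hκ x.toMul hx))).trans (h a)⟩

lemma bas_anti (G : Subgroup SInf) {l m : ℕ} (h : l ≤ m) : stab G m ≤ stab G l :=
  fun _ hg i hi => hg i (hi.trans_le h)

lemma bas_agree {G : Subgroup SInf} {m : ℕ} {x y : G} :
    x⁻¹ * y ∈ stab G m ↔ ∀ i < m, ap y i = ap x i :=
  forall₂_congr fun i _ => by
    show ap (x.1⁻¹ * y.1) i = i ↔ _
    rw [ap_mul]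
    exact ⟨fun h => by rw [← ap_ap_inv x.1 (ap y.1 i), h], fun h => by rw [h, ap_inv_ap]⟩

lemma bas_limit (G : CS) (hc : ∀ a b : G.toSubgroup, a * b = b * a) (h : ℕ → G.toSubgroup)
    (hh : ∀ m, (h m)⁻¹ * h (m + 1) ∈ stab G.toSubgroup m) :
    ∃ g : G.toSubgroup, ∀ m, (h m)⁻¹ * g ∈ stab G.toSubgroup m := by
  have h1 : ∀ m k, m ≤ k → (h m)⁻¹ * h k ∈ stab G.toSubgroup m := fun m k hk => by
    induction k, hk using Nat.le_induction with
    | base => simp
    | succ k hk ih => simpa [mul_assoc] using mul_mem ih (bas_anti _ hk (hh k))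
  have h2 : ∀ {i k}, i < k → ap (h k) i = ap (h (i + 1)) i := fun {i k} hk =>
    bas_agree.1 (h1 _ _ hk) i i.lt_succ_self
  have h3 : ∀ {i k}, i < k → ap (h k).1⁻¹ i = ap (h (i + 1)).1⁻¹ i := fun {i k} hk =>
    (bas_agree (x := (h (i + 1))⁻¹) (y := (h k)⁻¹)).1
      (by rw [inv_inv, hc]; simpa using inv_mem (h1 _ _ hk)) i i.lt_succ_self
  have key : ∀ i j, ap (h (i + 1)) i = j ↔ ap (h (j + 1)).1⁻¹ j = i := fun i j => by
    rw [← h2 (Nat.lt_succ_of_le (le_max_left i j)), ← h3 (Nat.lt_succ_of_le (le_max_right i j))]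
    generalize (h (max i j).succ).1 = u
    exact ⟨fun e => by rw [← e, ap_inv_ap], fun e => by rw [← e, ap_ap_inv]⟩
  let f : SInf := SInf.ofPerm ⟨fun i => ap (h (i + 1)) i, fun i => ap (h (i + 1)).1⁻¹ i,
    fun i => (key i _).1 rfl, fun j => (key _ j).2 rfl⟩
  have hf : ∀ m, ∀ i < m, ap f i = ap (h m) i := fun m i hi => (h2 hi).symm
  have hm : f ∈ closure (G : Set SInf) :=
    SInf_mem_closure.2 fun m => ⟨h m, (h m).2, fun i hi => (hf m i hi).symm⟩
  exact ⟨⟨f, G.isClosed'.closure_subset hm⟩, fun m => bas_agree.2 (hf m)⟩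

theorem p_BAS : S_BAS := by
  rintro n hn G ⟨hc, he⟩
  have hc' : ∀ a b : G.toSubgroup, a * b = b * a := fun a b => Subtype.ext (hc _ a.2 _ b.2)
  choose S χ h1 h2 h3 h4 h5 h6 h7 using fun m => bas_level hn hc'
    (fun a => Subtype.ext (he _ a.2)) (stab G.toSubgroup m) (stab G.toSubgroup (m + 1))
    (fun x (i : Fin (m + 1)) => ap x.1 i)
    fun x y h => bas_agree.2 fun i hi => (congrFun h ⟨i, hi⟩).symm
  have hN : ∀ (a : At2) m (y : QZ), y ∈ Subgroup.zpowers (cq a.1) →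
      (y ∈ N2 a m ↔ (a.2.1 < m → y = 1)) := fun a m y hy => by
    unfold N2
    split_ifs with h
    · simp [hy, h.not_gt]
    · simp [not_le.1 h]
  let θ : G.toSubgroup →* HS N2 {a | (a.1, a.2.2) ∈ S a.2.1} :=
    { toFun := fun g => ⟨⟨fun a => χ a.2.1 (a.1, a.2.2) g,
        fun a => (hN a 0 _ (h3 a.2.1 (a.1, a.2.2) g)).2 (by simp),
        fun m => ((finite_Iio m).biUnion fun l _ =>
          (h4 l g).image fun b => (b.1, l, b.2)).subset fun a ha => by
            rw [mem_ofPred_eq, hN a m _ (h3 a.2.1 (a.1, a.2.2) g), Classical.not_imp] at ha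
            exact mem_biUnion ha.1 ⟨_, ha.2, rfl⟩⟩, fun a ha => h2 _ _ ha g⟩
      map_one' := Subtype.ext (Subtype.ext (funext fun a => map_one _))
      map_mul' := fun g h => Subtype.ext (Subtype.ext (funext fun a => map_mul _ g h)) }
  have hV : ∀ m g, g ∈ stab G.toSubgroup m ↔ (θ g).1 ∈ VV N2 m := fun m g => by
    refine Iff.trans ?_ (forall_congr' fun a => (hN a m _ (h3 a.2.1 (a.1, a.2.2) g)).symm)
    refine ⟨fun hg a ha => h5 _ _ _ (bas_anti _ ha hg), fun h => ?_⟩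
    induction m with
    | zero => exact fun i hi => absurd hi i.not_lt_zero
    | succ m ih =>
      exact h6 m g (ih fun a ha => h a (ha.trans m.lt_succ_self)) fun b =>
        h (b.1, m, b.2) m.lt_succ_self
  refine ⟨_, fun a ha => h1 _ _ ha, MulEquiv.ofBijective θ ⟨?_, fun c => ?_⟩, hV⟩
  · rw [injective_iff_map_eq_one]
    refine fun g hg => Subtype.ext (ap_injective (funext fun i => ?_))
    exact (hV (i + 1) g).2 (by rw [hg]; exact one_mem _) i i.lt_succ_self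
  · have c2 : ∀ a : At2, c.1.1 a ∈ Subgroup.zpowers (cq a.1) := fun a => by
      simpa [N2] using c.1.2.1 a
    choose v hv hv' using fun m g => h7 m (fun b => (χ m b g)⁻¹ * c.1.1 (b.1, m, b.2))
      (fun b hb => by rw [h2 m b hb, c.2 (b.1, m, b.2) hb, inv_one, one_mul])
      (fun b => mul_mem (inv_mem (h3 m b g)) (c2 (b.1, m, b.2)))
      (((h4 m g).union ((c.1.2.2 (m + 1)).preimage (f := fun b : ℕ × ℕ => (b.1, m, b.2))
        fun b _ b' _ h => by simpa [Prod.ext_iff] using h)).subset fun b hb => by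
          by_contra hcon
          simp only [mem_union, mem_ofPred_eq, mem_preimage, not_or, not_not] at hcon
          exact hb (by rw [hcon.1, (hN _ _ _ (c2 (b.1, m, b.2))).1 hcon.2 m.lt_succ_self, inv_one,
            one_mul]))
    let h : ℕ → G.toSubgroup := fun m => Nat.rec 1 (fun m g => g * v m g) m
    have hs : ∀ m, h (m + 1) = h m * v m (h m) := fun _ => rfl
    obtain ⟨g, hg⟩ := bas_limit G hc' h fun m => by simpa [hs] using hv m (h m)
    refine ⟨g, Subtype.ext (Subtype.ext (funext fun a => ?_))⟩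
    have := h5 a.2.1 (a.1, a.2.2) _ (hg (a.2.1 + 1))
    rw [map_mul, map_inv, inv_mul_eq_one, hs, map_mul, hv', mul_inv_cancel_left] at this
    exact this.symm

end Pool.Agent.P.MP_52b1ec_lc

namespace Pool.Agent.P.MP_52b1ec_lc

open Topology Filter Set

/-- an injection that keeps the levels comparable -/
def cmb_Good (S S' : Set (ℕ × ℕ)) : Prop :=
  ∃ f : ℕ × ℕ → ℕ × ℕ, MapsTo f S S' ∧ InjOn f S ∧
    ∀ m, ∃ g, ∀ a ∈ S, (a.1 < m → (f a).1 < g) ∧ ((f a).1 < m → a.1 < g)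

/-- all levels from `m` on are finite -/
def cmb_Fin (S : Set (ℕ × ℕ)) (m : ℕ) : Prop := ∀ L, m ≤ L → {i | (L, i) ∈ S}.Finite

open Classical in
/-- the invariant -/
noncomputable def cmb_code (S : Set (ℕ × ℕ)) : Option (ℕ∞ × ℕ∞) :=
  if h : ∃ m, cmb_Fin S m then
    some ({a ∈ S | a.1 < h.choose}.encard, {a ∈ S | h.choose ≤ a.1}.encard) else none

lemma cmb_inj {s t : Set (ℕ × ℕ)} (h : s.encard = t.encard) :
    ∃ f : ℕ × ℕ → ℕ × ℕ, MapsTo f s t ∧ InjOn f s := by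
  by_cases hs : s.Finite
  · exact hs.exists_injOn_of_encard_le h.le
  · have ht : t.Infinite := encard_eq_top_iff.1 (h.symm.trans (encard_eq_top_iff.2 hs))
    exact ⟨fun a => ht.natEmbedding t (Encodable.encode a), fun a _ => (ht.natEmbedding t _).2,
      fun a _ b _ e => Encodable.encode_injective
        ((ht.natEmbedding t).injective (Subtype.ext e))⟩

lemma cmb_fin {S : Set (ℕ × ℕ)} {k : ℕ} (h : cmb_Fin S k) (m : ℕ) :
    {a ∈ S | k ≤ a.1 ∧ a.1 < m}.Finite := by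
  refine ((finite_Ico k m).biUnion fun L hL => (h L hL.1).image fun i => (L, i)).subset ?_
  rintro ⟨L, i⟩ ⟨h1, h2⟩
  exact mem_biUnion (x := L) h2 ⟨i, h1, rfl⟩

lemma cmb_some {S S' : Set (ℕ × ℕ)} {k k' : ℕ} (h : cmb_Fin S k) (h' : cmb_Fin S' k')
    (e1 : {a ∈ S | a.1 < k}.encard = {a ∈ S' | a.1 < k'}.encard)
    (e2 : {a ∈ S | k ≤ a.1}.encard = {a ∈ S' | k' ≤ a.1}.encard) : cmb_Good S S' := by
  obtain ⟨f, f1, f2⟩ := cmb_inj e1
  obtain ⟨g, g1, g2⟩ := cmb_inj e2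
  refine ⟨fun a => if a.1 < k then f a else g a, fun a ha => ?_, fun a ha b hb e => ?_, fun m => ?_⟩
  · dsimp only
    split_ifs with c
    exacts [(f1 ⟨ha, c⟩).1, (g1 ⟨ha, not_lt.1 c⟩).1]
  · dsimp only at e
    split_ifs at e with c d d
    · exact f2 ⟨ha, c⟩ ⟨hb, d⟩ e
    · exact absurd (e ▸ (f1 ⟨ha, c⟩).2) (g1 ⟨hb, not_lt.1 d⟩).2.not_gt
    · exact absurd (e ▸ (f1 ⟨hb, d⟩).2) (g1 ⟨ha, not_lt.1 c⟩).2.not_gt
    · exact g2 ⟨ha, not_lt.1 c⟩ ⟨hb, not_lt.1 d⟩ e
  · obtain ⟨u, hu⟩ := ((cmb_fin h m).image fun a => (g a).1).bddAbove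
    have h1 : {a ∈ S | k ≤ a.1 ∧ (g a).1 < m}.Finite :=
      Finite.of_injOn (f := g) (t := {a ∈ S' | k' ≤ a.1 ∧ a.1 < m})
        (fun a ha => ⟨(g1 ⟨ha.1, ha.2.1⟩).1, (g1 ⟨ha.1, ha.2.1⟩).2, ha.2.2⟩)
        (fun a ha b hb => g2 ⟨ha.1, ha.2.1⟩ ⟨hb.1, hb.2.1⟩) (cmb_fin h' m)
    obtain ⟨v, hv⟩ := (h1.image Prod.fst).bddAbove
    refine ⟨u + v + k + k' + 1, fun a ha => ?_⟩
    dsimp only
    split_ifs with c
    · have : (f a).1 < k' := (f1 ⟨ha, c⟩).2
      constructor <;> intro <;> omega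
    · refine ⟨fun d => ?_, fun d => ?_⟩
      · have : (g a).1 ≤ u := hu ⟨a, ⟨ha, not_lt.1 c, d⟩, rfl⟩
        omega
      · have : a.1 ≤ v := hv ⟨a, ⟨ha, not_lt.1 c, d⟩, rfl⟩
        omega

lemma cmb_none {S S' : Set (ℕ × ℕ)} (h : ¬ ∃ m, cmb_Fin S' m) : cmb_Good S S' := by
  simp only [cmb_Fin, not_exists, not_forall] at h
  choose μ h1 h2 using h
  have h3 : ∀ L, ∃ e : ℕ → ℕ, {i | (L, i) ∈ S'}.Infinite →
      Function.Injective e ∧ ∀ i, (L, e i) ∈ S' := fun L => by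
    by_cases c : {i | (L, i) ∈ S'}.Infinite
    · exact ⟨fun i => c.natEmbedding _ i, fun _ => ⟨fun a b e =>
        (c.natEmbedding _).injective (Subtype.ext e), fun i => (c.natEmbedding _ i).2⟩⟩
    · exact ⟨id, fun d => absurd d c⟩
  choose e he using h3
  refine ⟨fun a => (μ a.1, e (μ a.1) (Encodable.encode a)), fun a _ => (he _ (h2 _)).2 _,
    fun a _ b _ E => ?_, fun m => ⟨m + ∑ j ∈ Finset.range m, μ j + 1, fun a _ => ⟨fun d => ?_,
      fun d => ?_⟩⟩⟩
  · obtain ⟨E1, E2⟩ := Prod.ext_iff.1 E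
    dsimp only at E1 E2
    rw [E1] at E2
    exact Encodable.encode_injective ((he _ (h2 _)).1 E2)
  · have := Finset.single_le_sum (f := μ) (fun _ _ => Nat.zero_le _) (Finset.mem_range.2 d)
    dsimp only
    omega
  · have := h1 a.1
    dsimp only at d
    omega

lemma cmb_good {S S' : Set (ℕ × ℕ)} (h : cmb_code S = cmb_code S') : cmb_Good S S' := by
  by_cases c' : ∃ m, cmb_Fin S' m
  · unfold cmb_code at h
    rw [dif_pos c'] at h
    split_ifs at h with c
    obtain ⟨e1, e2⟩ := Prod.ext_iff.1 (Option.some.inj h)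
    exact cmb_some c.choose_spec c'.choose_spec e1 e2
  · exact cmb_none c'

lemma cmb_half {n : ℕ} (hn : n ≠ 0) {S S' : Set At2} (hS : ∀ a ∈ S, a.1 ∣ n)
    (h : ∀ p : n.divisors, cmb_Good {b | (p.1, b) ∈ S} {b | (p.1, b) ∈ S'}) :
    ∃ (γ : ℕ → ℕ) (f : S → S'), Function.Injective f ∧ ∀ a : S, a.1.1 = (f a).1.1 ∧
      ∀ m, (a.1.2.1 < m → (f a).1.2.1 < γ m) ∧ ((f a).1.2.1 < m → a.1.2.1 < γ m) := by
  choose f f1 f2 g f3 using h
  let q : S → n.divisors := fun a => ⟨a.1.1, Nat.mem_divisors.2 ⟨hS a.1 a.2, hn⟩⟩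
  refine ⟨fun m => ∑ p, g p m, fun a => ⟨(a.1.1, f (q a) a.1.2), f1 (q a) a.2⟩,
    fun a b e => ?_, fun a => ⟨rfl, fun m => ?_⟩⟩
  · obtain ⟨⟨p, x⟩, ha⟩ := a
    obtain ⟨⟨p', y⟩, hb⟩ := b
    obtain ⟨rfl, e2⟩ := Prod.ext_iff.1 (congrArg Subtype.val e)
    exact Subtype.ext (Prod.ext rfl (f2 (q ⟨_, ha⟩) ha hb e2))
  · have := Finset.single_le_sum (f := fun p => g p m) (fun _ _ => Nat.zero_le _)
      (Finset.mem_univ (q a))
    have h4 := f3 (q a) m a.1.2 a.2
    exact ⟨fun d => (h4.1 d).trans_le this, fun d => (h4.2 d).trans_le this⟩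

theorem p_CMB : S_CMB := by
  intro n hn
  refine ⟨n.divisors → Option (ℕ∞ × ℕ∞), inferInstance, fun S p => cmb_code {b | (p.1, b) ∈ S},
    fun S S' hS hS' h => ?_⟩
  obtain ⟨γ, f, f1, f2⟩ := cmb_half hn hS fun p => cmb_good (congrFun h p)
  obtain ⟨γ', g, g1, g2⟩ := cmb_half hn hS' fun p => cmb_good (congrFun h p).symm
  obtain ⟨σ, hb, hR⟩ := Function.Embedding.schroeder_bernstein_of_rel f1 g1
    (fun a b => a.1.1 = b.1.1 ∧ ∀ m, (a.1.2.1 < m → b.1.2.1 < γ m + γ' m) ∧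
      (b.1.2.1 < m → a.1.2.1 < γ m + γ' m))
    (fun a => ⟨(f2 a).1, fun m => ⟨fun d => (((f2 a).2 m).1 d).trans_le (Nat.le_add_right _ _),
      fun d => (((f2 a).2 m).2 d).trans_le (Nat.le_add_right _ _)⟩⟩)
    fun b => ⟨(g2 b).1.symm, fun m => ⟨fun d => (((g2 b).2 m).2 d).trans_le (Nat.le_add_left _ _),
      fun d => (((g2 b).2 m).1 d).trans_le (Nat.le_add_left _ _)⟩⟩
  exact ⟨fun m => γ m + γ' m, Equiv.ofBijective σ hb, hR⟩

end Pool.Agent.P.MP_52b1ec_lc
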