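import Pool.Agent.P.MP_52b1ec_lc.X.Hall
import Pool.Agent.P.MP_52b1ec_lc.X.Smooth

namespace Pool.Agent.P.MP_52b1ec_lc.NC

open Topology Filter Set
open FreeGroup (lift of lift_unique lift_apply_of)
open scoped commutatorElement

variable {G H : Type} [Group G] [Group H] {L : Set (FreeGroup ℕ)}

lemma lift_comp (φ : G →* H) (f : ℕ → G) (w : FreeGroup ℕ) :
    φ (lift f w) = lift (fun j => φ (f j)) w :=
  lift_unique (φ.comp (lift f)) fun j => by simp

lemma lift_fin (w : FreeGroup ℕ) :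
    ∃ K, ∀ f g : ℕ → G, (∀ j < K, f j = g j) → lift f w = lift g w := by
  induction w using FreeGroup.induction_on with
  | C1 => exact ⟨0, fun _ _ _ => by simp⟩
  | of j => exact ⟨j + 1, fun _ _ h => by simp [h j]⟩
  | inv_of j ih => exact ih.imp fun K h f g k => by rw [map_inv, map_inv, h f g k]
  | mul a b ha hb =>
    obtain ⟨K, hK⟩ := ha
    obtain ⟨M, hM⟩ := hb
    exact ⟨K + M, fun f g h => by
      rw [map_mul, map_mul, hK f g fun j hj => h j (by omega), hM f g fun j hj => h j (by omega)]⟩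

variable (L G) in
/-- the group satisfies the laws -/
def Sat : Prop := ∀ w ∈ L, ∀ f : ℕ → G, lift f w = 1

lemma Sat.of_surj (h : Sat G L) (φ : G →* H) (hφ : Function.Surjective φ) : Sat H L := by
  intro w hw f
  choose g hg using fun j => hφ (f j)
  rw [← funext hg, ← lift_comp, h w hw, map_one]

lemma sat_iff {A : CS} : A ∈ Var L ↔ Sat A.toSubgroup L :=
  forall₂_congr fun w _ => ⟨fun h f => Subtype.ext ((lift_comp A.toSubgroup.subtype f w).trans
    (h _ fun j => (f j).2)), fun h f hf => (lift_comp A.toSubgroup.subtype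
      (fun j => ⟨f j, hf j⟩) w).symm.trans (congrArg Subtype.val (h _))⟩

lemma invariant_var : Invariant (Var L) := fun _ hA _ ⟨e⟩ =>
  sat_iff.2 ((sat_iff.1 hA).of_surj e.toMulEquiv.toMonoidHom e.surjective)

lemma continuous_lift (w : FreeGroup ℕ) : Continuous fun f : ℕ → SInf => lift f w := by
  induction w using FreeGroup.induction_on with
  | C1 => simpa using continuous_const
  | of j => simpa using continuous_apply j
  | inv_of j ih => simpa only [map_inv] using ih.fun_inv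
  | mul a b ha hb => simpa only [map_mul] using ha.fun_mul hb

lemma measurableSet_hitN {U : Set (ℕ → SInf)} (hU : IsOpen U) :
    MeasurableSet {A : CS | ∃ f ∈ U, ∀ j, f j ∈ A} := by
  have : {A : CS | ∃ f ∈ U, ∀ j, f j ∈ A} = ⋃ (n : ℕ) (s : Fin n → Fin n → ℕ)
      (_ : ∀ f : ℕ → SInf, (∀ j i : Fin n, ap (f j) i = s j i) → f ∈ U), ⋂ j : Fin n,
        {A : CS | ∃ g ∈ A, g ∈ ⋂ i : Fin n, {g | ap g i = s j i}} := by
    ext A
    simp only [mem_ofPred_eq, mem_iUnion, mem_iInter, exists_prop]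
    constructor
    · rintro ⟨f, hf, hA⟩
      have := hU.mem_nhds hf
      rw [nhds_pi, Filter.mem_pi] at this
      obtain ⟨I, hI, t, ht, hs⟩ := this
      choose k hk using fun j => SInf_mem_nhds.1 (ht j)
      obtain ⟨n, hn⟩ := (hI.image fun j => j + k j + 1).bddAbove
      refine ⟨n, fun j i => ap (f j) i, fun g hg => hs fun j hj => hk j _ fun i hi => ?_,
        fun j => ⟨f j, hA j, fun _ => rfl⟩⟩
      have := hn (mem_image_of_mem _ hj)
      exact hg ⟨j, by omega⟩ ⟨i, by omega⟩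
    · rintro ⟨n, s, hs, hA⟩
      choose g g1 g2 using hA
      refine ⟨fun j => if h : j < n then g ⟨j, h⟩ else 1, hs _ fun j i => by simp [g2], fun j => ?_⟩
      simp only
      split_ifs
      exacts [g1 _, A.toSubgroup.one_mem]
  rw [this]
  exact .iUnion fun n => .iUnion fun s => .iUnion fun _ => .iInter fun j => measurableSet_hit
    (isOpen_iInter_of_finite fun i => (isOpen_discrete {s j i}).preimage (continuous_ap_at i))

lemma measurableSet_var : MeasurableSet (Var L) := by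
  have : Var L = ⋂ w ∈ L, {A : CS | ∃ f ∈ {f : ℕ → SInf | lift f w ≠ 1}, ∀ j, f j ∈ A}ᶜ := by
    ext A
    simp only [Var, mem_ofPred_eq, mem_iInter, mem_compl_iff, not_exists, not_and]
    exact forall₂_congr fun w _ => forall_congr' fun f => not_imp_not.symm
  rw [this]
  exact MeasurableSet.biInter L.to_countable fun w _ =>
    (measurableSet_hitN (isOpen_ne_fun (continuous_lift w) continuous_const)).compl

variable (L) in
/-- the consequences of the laws -/
def NL : Subgroup (FreeGroup ℕ) where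
  carrier := {w | ∀ (G : Type) [Group G], Sat G L → ∀ f : ℕ → G, lift f w = 1}
  one_mem' := fun _ _ _ _ => map_one _
  mul_mem' ha hb G _ h f := by rw [map_mul, ha G h, hb G h, one_mul]
  inv_mem' ha G _ h f := by rw [map_inv, ha G h, inv_one]

instance : (NL L).Normal := ⟨fun a ha b G _ h f => by simp [ha G h f]⟩

variable (L) in
/-- the relatively free group -/
abbrev FL : Type := FreeGroup ℕ ⧸ NL L

lemma sat_FL : Sat (FL L) L := by
  intro w hw f
  choose g hg using fun j => QuotientGroup.mk'_surjective (NL L) (f j)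
  rw [← funext hg, ← lift_comp]
  exact (QuotientGroup.eq_one_iff _).2 fun G _ h k => (lift_comp _ g w).trans (h w hw _)

/-- substitution -/
def ths (h : Sat G L) (f : ℕ → G) : FL L →* G :=
  QuotientGroup.lift _ (lift f) fun _ hw => hw G h f

lemma ths_mk (h : Sat G L) (f : ℕ → G) (w : FreeGroup ℕ) : ths h f (w : FL L) = lift f w := rfl

/-- the exponent sum of the first letter -/
def deg : FreeGroup ℕ →* Multiplicative ℤ :=
  lift fun j => if j = 0 then Multiplicative.ofAdd 1 else 1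

lemma lift_single (a : G) (w : FreeGroup ℕ) :
    lift (fun j => if j = 0 then a else 1) w = a ^ (deg w).toAdd := by
  refine Eq.trans ?_ (lift_comp (zpowersHom G a) _ w).symm
  congr 2
  funext j
  split_ifs <;> simp

lemma exists_prime (h : ¬ ∃ n, Squarefree n ∧ Var L ⊆ AbExp n) : ∃ p : ℕ, p.Prime ∧
    ∀ w : FreeGroup ℕ, (∀ k : FL L, ⁅(w : FL L), k⁆ = 1) → (w : FL L) ^ p = 1 →
      (p : ℤ) ∣ (deg w).toAdd := by
  set x : FL L := QuotientGroup.mk (of 0) with hx
  by_cases hc : x ∈ Subgroup.center (FL L)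
  · have : ¬ Squarefree (orderOf x) := fun hs => h ⟨_, hs, fun A hA => ⟨fun a ha b hb => ?_,
      fun a ha => ?_⟩⟩
    · rw [Nat.squarefree_iff_prime_squarefree] at this
      push Not at this
      obtain ⟨p, hp, hd⟩ := this
      refine ⟨p, hp, fun w _ hw => ?_⟩
      have e := congrArg (ths sat_FL fun j => if j = 0 then x else 1) hw
      rw [map_pow, ths_mk, lift_single, map_one, ← zpow_natCast, ← zpow_mul,
        ← orderOf_dvd_iff_zpow_eq_one] at e
      have e' := (Int.natCast_dvd_natCast.2 hd).trans e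
      rw [Nat.cast_mul] at e'
      exact (mul_dvd_mul_iff_right (Nat.cast_ne_zero.2 hp.ne_zero)).1 e'
    · have e := congrArg (ths (sat_iff.1 hA) fun j => if j = 0 then ⟨a, ha⟩ else ⟨b, hb⟩)
        (Subgroup.mem_center_iff.1 hc (QuotientGroup.mk (of 1)))
      simp only [map_mul, hx, ths_mk, lift_apply_of, if_true, one_ne_zero, if_false] at e
      exact (congrArg Subtype.val e).symm
    · have e := congrArg (ths (sat_iff.1 hA) fun _ => ⟨a, ha⟩) (pow_orderOf_eq_one x)
      rw [map_pow, map_one, hx, ths_mk, lift_apply_of] at e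
      exact congrArg Subtype.val e
  · have hd : orderOf (x : FL L ⧸ Subgroup.center (FL L)) ≠ 1 := fun e =>
      hc ((QuotientGroup.eq_one_iff _).1 (orderOf_eq_one_iff.1 e))
    refine ⟨_, Nat.minFac_prime hd, fun w hw _ =>
      (Int.natCast_dvd_natCast.2 (Nat.minFac_dvd _)).trans ?_⟩
    rw [orderOf_dvd_iff_zpow_eq_one, ← QuotientGroup.mk_zpow, QuotientGroup.eq_one_iff,
      Subgroup.mem_center_iff]
    intro b
    obtain ⟨K, hK⟩ := lift_fin (G := FL L) w
    have e := congrArg (ths sat_FL fun j => if j = K + 1 then b else if j = 0 then x else 1)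
      (commutatorElement_eq_one_iff_mul_comm.1 (hw (QuotientGroup.mk (of (K + 1)))))
    rw [map_mul, map_mul, ths_mk, ths_mk, lift_apply_of, if_pos rfl,
      hK _ (fun j => if j = 0 then x else 1) fun j hj => if_neg (by omega), lift_single] at e
    exact e.symm

lemma exists_ext (h : ¬ ∃ n, Squarefree n ∧ Var L ⊆ AbExp n) :
    ∃ p : ℕ, p.Prime ∧ Nonempty (Ext (FL L) (Multiplicative (ZMod p))) := by
  obtain ⟨p, hp, h1⟩ := exists_prime h
  let κ : FreeGroup ℕ →* Multiplicative (ZMod p) :=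
    (Int.castAddHom (ZMod p)).toMultiplicative.comp deg
  have h2 : ∀ w : FreeGroup ℕ, (∀ k : FL L, ⁅(w : FL L), k⁆ = 1) → (w : FL L) ^ p = 1 → κ w = 1 :=
    fun w a b => congrArg Multiplicative.ofAdd
      ((ZMod.intCast_zmod_eq_zero_iff_dvd _ _).2 (h1 w a b))
  refine ⟨p, hp, ⟨⟨p, QuotientGroup.lift _ κ fun w hw => h2 w ?_ ?_, fun y => ?_, fun y => ?_,
    fun q => QuotientGroup.induction_on q h2⟩⟩⟩
  · simp [(QuotientGroup.eq_one_iff w).2 hw]
  · simp [(QuotientGroup.eq_one_iff w).2 hw]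
  · obtain ⟨k, hk⟩ := ZMod.intCast_surjective y.toAdd
    refine ⟨QuotientGroup.mk (of 0 ^ k), ?_⟩
    simp [κ, deg, ← ofAdd_zsmul, hk]
  · apply Multiplicative.toAdd.injective
    simp

end Pool.Agent.P.MP_52b1ec_lc.NC

namespace Pool.Agent.P.MP_52b1ec_lc.NC

open Topology Filter Set MeasureTheory Forest

variable {Γ P : Type} [Group Γ] [CommGroup P] [Countable Γ] [Finite P] [Nontrivial P]
  {L : Set (FreeGroup ℕ)}

theorem exists_red (D : Ext Γ P) (hΓ : Sat Γ L) {φ : (ℕ → ℕ) → K × K} (hφ : Continuous φ)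
    {E : K → K → Prop} (hE : Equivalence E) (hr : ∀ z, E (φ z).1 (φ z).2)
    (hs : ∀ x y, E x y → x = y ∨ ∃ z, φ z = (x, y)) :
    ∃ f : K → CS, Measurable f ∧ (∀ x, f x ∈ Var L ∩ ProCountable) ∧
      ∀ x y, E x y ↔ TopIso (f x) (f y) := by
  obtain ⟨ρ, hρ⟩ := exists_rep (FF D).V (FF D).V_anti (FF D).V_normal cnt_quot
  have hi := hρ.injective (FF D).V_sep
  refine ⟨fun x => ⟨((FF D).GG (SX φ x)).map ρ, hρ.isClosed _ (GG_complete _)⟩, ?_,
    fun x => ⟨sat_iff.2 ?_, hρ.proCountable (FF D).V_normal rfl⟩,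
    fun x y => ⟨fun h => ?_, fun h => rel_FF D hφ hE hr ((hρ.iso_iff hi _ _).1 h)⟩⟩
  · exact measurable_CS fun U hU =>
      measurable_GG hρ (SX φ) (fun a => (isOpen_SX a).measurableSet) hU
  · refine Sat.of_surj (fun w hw f => GG_ext fun r ks => ⟨?_, ?_⟩) _
      (ρ.subgroupMap_surjective ((FF D).GG (SX φ x)))
    · rw [lift_comp, hΓ.of_surj D.π D.surj w hw, map_one]
    · rw [lift_comp, hΓ w hw, map_one]
  · rcases hs x y h with rfl | ⟨z, hz⟩
    · exact topIso_equivalence.refl _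
    · rcases hs y x (hE.symm h) with rfl | ⟨z', hz'⟩
      · exact topIso_equivalence.refl _
      · exact (hρ.iso_iff hi _ _).2 (uIso_FF D hz hz')

theorem borelRed_var (D : Ext Γ P) (hΓ : Sat Γ L) {C : Set CS} (hC : Var L ∩ ProCountable ⊆ C)
    (X : Type) [MeasurableSpace X] [StandardBorelSpace X] (F : X → X → Prop)
    (hF : IsAnalyticEqv F) : BorelRed F (IsoOn C) := by
  obtain ⟨hF, B, hB, hFB⟩ := hF
  rcases isEmpty_or_nonempty X with hX | ⟨⟨x0⟩⟩
  · exact ⟨isEmptyElim, measurable_of_empty _, fun x => isEmptyElim x⟩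
  obtain ⟨e, he, hinj⟩ := MeasurableSpace.measurable_injection_nat_bool_of_countablySeparated X
  have hA : AnalyticSet ((fun p : (X × X) × (ℕ → ℕ) => (e p.1.1, e p.1.2)) '' B) :=
    hB.analyticSet_image (by fun_prop)
  rw [AnalyticSet] at hA
  rcases hA with hA | ⟨φ, hφ, hA⟩
  · obtain ⟨z, hz⟩ := (hFB x0 x0).1 (hF.refl x0)
    rw [image_eq_empty] at hA
    rw [hA] at hz
    exact hz.elim
  let E : K → K → Prop := fun a b => a = b ∨ ∃ x y, F x y ∧ e x = a ∧ e y = b
  have hE : Equivalence E := by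
    refine ⟨fun a => Or.inl rfl, ?_, ?_⟩
    · rintro a b (h | ⟨x, y, h, rfl, rfl⟩)
      · exact Or.inl h.symm
      · exact Or.inr ⟨y, x, hF.symm h, rfl, rfl⟩
    · rintro a b c (rfl | ⟨x, y, h, rfl, rfl⟩) h2
      · exact h2
      · rcases h2 with rfl | ⟨x', y', h', h3, rfl⟩
        · exact Or.inr ⟨x, y, h, rfl, rfl⟩
        · rw [hinj h3] at h'
          exact Or.inr ⟨x, y', hF.trans h h', rfl, rfl⟩
  obtain ⟨f, hf, hab, hiff⟩ := exists_red D hΓ hφ hE (by
    intro z
    have : φ z ∈ range φ := mem_range_self z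
    rw [hA] at this
    obtain ⟨⟨⟨x, y⟩, w⟩, hw, hz⟩ := this
    exact Or.inr ⟨x, y, (hFB x y).2 ⟨w, hw⟩, congrArg Prod.fst hz, congrArg Prod.snd hz⟩) (by
    rintro a b (h | ⟨x, y, h, rfl, rfl⟩)
    · exact Or.inl h
    · obtain ⟨w, hw⟩ := (hFB x y).1 h
      right
      show (e x, e y) ∈ range φ
      rw [hA]
      exact ⟨_, hw, rfl⟩)
  refine ⟨fun x => ⟨f (e x), hC (hab _)⟩, (hf.comp he).subtype_mk, fun x y => ?_⟩
  show _ ↔ TopIso (f (e x)) (f (e y))
  rw [← hiff]
  constructor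
  · intro h
    exact Or.inr ⟨x, y, h, rfl, rfl⟩
  · rintro (h | ⟨x', y', h, h1, h2⟩)
    · rw [hinj h]; exact hF.refl y
    · rwa [← hinj h1, ← hinj h2]

theorem complete_var (h : ¬ ∃ n, Squarefree n ∧ Var L ⊆ AbExp n) {C : Set CS}
    (hC : Var L ∩ ProCountable ⊆ C) : AnalyticComplete (IsoOn C) := by
  obtain ⟨p, hp, ⟨D⟩⟩ := exists_ext h
  have := Fact.mk hp
  have : Countable (FL L) := QuotientGroup.mk_surjective.countable
  exact ⟨isAnalyticEqv_isoOn _, fun X _ _ F hF => borelRed_var D sat_FL hC X F hF⟩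

lemma N2_le {a b : At2} (h : a.1 = b.1) {m m' : ℕ} (h2 : b.2.1 < m → a.2.1 < m') :
    N2 a m' ≤ N2 b m := by
  unfold N2
  split_ifs with h3 h4
  · rw [h]
  · omega
  · exact bot_le
  · exact le_rfl

theorem smooth_abExp {n : ℕ} (hn : Squarefree n) {C : Set CS} (hC : C ⊆ AbExp n) :
    BorelRed (IsoOn C) (fun a b : ℕ => a = b) := by
  obtain ⟨T, _, τ, hτ⟩ := p_CMB n hn.ne_zero
  choose S h1 θ h2 using fun G (hG : G ∈ C) => p_BAS n hn G (hC hG)
  refine (p_LUS _ T (fun G => τ (S G.1 G.2)) fun G H h => ?_).1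
  obtain ⟨γ, σ, h3⟩ := hτ _ _ (h1 _ G.2) (h1 _ H.2) h
  obtain ⟨η, e1, e2⟩ := uIso_of_equiv (N := N2) σ γ
    (fun a => by simp only [N2, Nat.zero_le, if_true, (h3 a).1])
    (fun a m => N2_le (h3 a).1 ((h3 a).2 m).2) fun a m => N2_le (h3 a).1.symm ((h3 a).2 m).1
  let e := (θ _ G.2).trans (η.trans (θ _ H.2).symm)
  refine ⟨⟨e, (hom_continuous_iff e.toMonoidHom).2 fun m => ?_,
    (hom_continuous_iff e.symm.toMonoidHom).2 fun m => ?_⟩⟩
  · obtain ⟨k, hk⟩ := e1 m
    exact ⟨k, fun g hg => (h2 _ H.2 m _).2 (by simpa [e] using hk _ ((h2 _ G.2 k g).1 hg))⟩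
  · obtain ⟨k, hk⟩ := e2 m
    exact ⟨k, fun g hg => (h2 _ G.2 m _).2 (by simpa [e] using hk _ ((h2 _ H.2 k g).1 hg))⟩

theorem graph_of_nat {X : Type} [MeasurableSpace X] {E : X → X → Prop}
    (h : BorelRed E fun a b : ℕ => a = b) : BorelRed E GraphIso := by
  obtain ⟨f, hf, h⟩ := h
  refine ⟨fun G => lus_gr (f G), (measurable_from_nat (f := lus_gr)).comp hf, fun G H => ?_⟩
  rw [h]
  exact ⟨fun e => by simp only [show f G = f H from e]; exact ⟨SimpleGraph.Iso.refl⟩,
    fun ⟨e⟩ => le_antisymm (lus_le e) (lus_le e.symm)⟩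

theorem tfae_var {C : Set CS} (h1 : Var L ∩ ProCountable ⊆ C) (h2 : C ⊆ Var L) :
    List.TFAE [∃ n, Squarefree n ∧ C ⊆ AbExp n, BorelRed (IsoOn C) (fun a b : ℕ => a = b),
      BorelRed (IsoOn C) GraphIso, ¬ AnalyticComplete (IsoOn C)] := by
  tfae_have 1 → 2 := fun ⟨_, hn, h⟩ => smooth_abExp hn h
  tfae_have 2 → 3 := graph_of_nat
  tfae_have 3 → 4 := fun h k => k.not_borelRed h
  tfae_have 4 → 1 := not_imp_comm.1 fun h =>
    complete_var (fun ⟨n, hn, k⟩ => h ⟨n, hn, h2.trans k⟩) h1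
  tfae_finish

end Pool.Agent.P.MP_52b1ec_lc.NC
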