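import Pool.Agent.P.MP_52b1ec_lc.X.Tree
import Pool.Agent.P.MP_52b1ec_lc.Chain

namespace Pool.Agent.P.MP_52b1ec_lc.NC

open Topology Filter Set

lemma cnt_fin {I M : Type} [Countable I] [Countable M] [One M] :
    {f : I → M | (Function.mulSupport f).Finite}.Countable := by
  classical
  refine (countable_iUnion fun A : Finset I => countable_range (fun (f : A → M) (a : I) =>
    if h : a ∈ A then f ⟨a, h⟩ else 1)).mono fun g hg => ?_
  refine mem_iUnion.2 ⟨hg.toFinset, fun a => g a.1, funext fun a => ?_⟩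
  by_cases h : a ∈ hg.toFinset
  · exact dif_pos h
  · exact (dif_neg h).trans (by simpa [eq_comm] using h)

namespace Forest

variable {R Γ P : Type} [Group Γ] [CommGroup P] {F : Forest R Γ P} {S S' : Set R} {ι : Type}

variable (F S) in
/-- the subgroup attached to a staircase -/
noncomputable def St (ρ ρ' : LL) (m0 : ℕ) (Y m : ι → ℕ) : Subgroup (F.GG S) :=
  Dv F.p (F.W S) ρ' m0 ⊔ ⨆ i, (Dv F.p (F.W S) ρ (Y i) ⊓ F.W S (m i))

lemma St_kill {ρ ρ' : LL} (hρ : ρ < ρ') {m0 : ℕ} {Y m : ι → ℕ} {r : R} (h1 : F.lay r = ρ)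
    (h2 : F.lo r < m0) (h3 : ∀ i, Y i ≤ F.hi r → F.lo r < m i) :
    F.St S ρ ρ' m0 Y m ≤ (F.ea S (r, [])).ker := by
  refine sup_le (fun g hg => Dv_a ρ' hg (r, []) h2 (h1.trans_lt hρ)) (iSup_le fun i g hg => ?_)
  rcases le_or_gt (Y i) (F.hi r) with h | h
  · exact (mem_W.1 hg.2).1 (r, []) (h3 i h)
  · exact Dv_top hg.1 (c := (r, [])) h h1.le

lemma St_fill {ρ ρ' : LL} (hρ : ∀ β, ρ < β → ρ' ≤ β) {m0 : ℕ} {Y m : ι → ℕ}
    (h1 : ∀ r ∈ S, ρ < F.lay r → m0 ≤ F.hi r) {g : F.GG S} (hg : g ∈ Dv F.p (F.W S) ρ m0)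
    (h2 : ∀ r ∈ S, F.lay r = ρ → F.lo r < m0 → (∀ i, Y i ≤ F.hi r → F.lo r < m i) →
      F.ea S (r, []) g = 1) : g ∈ F.St S ρ ρ' m0 Y m := by
  refine gen_mem (m := m0) ((W_le_Dv ρ' m0 (W_normal m0)).trans le_sup_left) (fun c hc => ?_)
    fun c q a1 a2 a3 => ?_
  · exact Subgroup.mem_sup_left (tors_Dv (fun k => gen_bot c k (Dv_y hg hc)) _ _)
  rcases (not_lt.1 fun h => a3 (Dv_a ρ hg c a1 h)).lt_or_eq with h | h
  · exact Subgroup.mem_sup_left (gen_Dv ρ' c q m0 (hρ _ h) a2)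
  obtain ⟨⟨r, _ | ⟨a, ks⟩⟩, hr, hv⟩ := c
  · obtain ⟨i, b1, b2⟩ : ∃ i, Y i ≤ F.hi r ∧ m i ≤ F.lo r := by
      by_contra hc
      push Not at hc
      exact a3 (h2 r hr h.symm a1 hc)
    refine Subgroup.mem_sup_right (Subgroup.mem_iSup_of_mem i
      ⟨gen_Dv ρ _ q _ h.le b1, mem_W.2 ⟨fun e he => ?_, fun e he => ?_⟩⟩)
    · refine ea_gen_ne _ ?_ (Or.inr rfl)
      rintro rfl
      exact absurd he (not_lt.2 b2)
    · refine if_neg ?_
      rintro rfl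
      exact absurd ((F.nlo_le (r, [])).trans_lt he) (not_lt.2 b2)
  · have b1 := h1 r hr (h.trans_lt (hv.1.trans_le (nlay_le hv.2)))
    exact absurd a1 (not_lt.2 (b1.trans (Nat.le_add_right _ _)))

lemma St_map {ρ ρ' : LL} {m0 : ℕ} {Y m : ι → ℕ} (θ : F.GG S' →* F.GG S)
    (hs : Function.Surjective θ) {γ : ℕ → ℕ} (h : ∀ k, ∀ g ∈ F.W S' (γ k), θ g ∈ F.W S k) :
    F.St S' ρ ρ' (γ m0) (fun i => γ (Y i)) (fun i => γ (m i)) ≤ (F.St S ρ ρ' m0 Y m).comap θ :=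
  sup_le (fun g hg => Subgroup.mem_sup_left (map_Dv θ hs h ρ' m0 g hg)) (iSup_le fun i g hg =>
    Subgroup.mem_sup_right (Subgroup.mem_iSup_of_mem i ⟨map_Dv θ hs h ρ _ g hg.1, h _ g hg.2⟩))

theorem hall [Finite P] [Nontrivial P] (θ : F.GG S ≃* F.GG S') {γ : ℕ → ℕ}
    (g1 : ∀ k, ∀ g ∈ F.W S (γ k), θ g ∈ F.W S' k)
    (g2 : ∀ k, ∀ g ∈ F.W S' (γ k), θ.symm g ∈ F.W S k)
    {ρ ρ' : LL} (hρ : ρ < ρ') (hρ' : ∀ β, ρ < β → ρ' ≤ β) {m0 : ℕ} {Y m : ι → ℕ}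
    (A A' : Finset R)
    (h1 : ∀ r ∈ A, r ∈ S ∧ F.lay r = ρ ∧ γ (γ m0) ≤ F.hi r ∧ F.lo r < m0 ∧
      ∀ i, Y i ≤ F.hi r → F.lo r < m i)
    (h2 : ∀ r ∈ S', ρ < F.lay r → γ m0 ≤ F.hi r)
    (h3 : ∀ r ∈ S', F.lay r = ρ → F.lo r < γ m0 →
      (∀ i, γ (Y i) ≤ F.hi r → F.lo r < γ (m i)) → r ∈ A') : A.card ≤ A'.card := by
  classical
  choose rt hrt using F.surj
  let nd : A → {c // F.Ok S c} := fun r => ⟨(r.1, []), (h1 r.1 r.2).1, trivial⟩
  have hu : ∀ s : A → P, ∃ u ∈ Dv F.p (F.W S) ρ (γ (γ m0)), ∀ r : A, F.ea S (r.1, []) u = s r := by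
    intro s
    obtain ⟨u, u1, u2, -⟩ := exists_prod (T := Dv F.p (F.W S) ρ (γ (γ m0)))
      (fun c => if h : c.1.1 ∈ A then rt (s ⟨_, h⟩) else 1) (Finset.univ.image nd) fun c hc => by
        obtain ⟨r, -, rfl⟩ := Finset.mem_image.1 hc
        exact gen_Dv ρ _ _ _ (h1 r.1 r.2).2.1.ge (h1 r.1 r.2).2.2.1
    refine ⟨u, u1, fun r => ?_⟩
    rw [u2, Finset.prod_eq_single_of_mem (nd r) (Finset.mem_image_of_mem _ (Finset.mem_univ r))]
    · exact (ea_gen_self (nd r) _).trans (by rw [dif_pos r.2, hrt])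
    · intro b hb hb'
      obtain ⟨b, -, rfl⟩ := Finset.mem_image.1 hb
      exact ea_gen_ne _ (fun h => hb' (Subtype.ext h.symm)) (Or.inr rfl)
  choose u u1 u2 using hu
  have key := Nat.card_le_card_of_injective (fun (s : A → P) (r : A') =>
    F.ea S' (r.1, []) (θ (u s))) fun s t h => by
      have b1 : θ ((u s)⁻¹ * u t) ∈ F.St S' ρ ρ' (γ m0) (fun i => γ (Y i)) (fun i => γ (m i)) :=
        St_fill hρ' h2 (map_Dv θ.toMonoidHom θ.surjective g1 ρ _ _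
          (Subgroup.mul_mem _ (Subgroup.inv_mem _ (u1 s)) (u1 t))) fun r a1 a2 a3 a4 => by
            rw [map_mul, map_mul, map_inv, map_inv, inv_mul_eq_one]
            exact congrFun h ⟨r, h3 r a1 a2 a3 a4⟩
      have b2 : θ.symm (θ ((u s)⁻¹ * u t)) ∈ F.St S ρ ρ' m0 Y m :=
        St_map θ.symm.toMonoidHom θ.symm.surjective g2 b1
      rw [θ.symm_apply_apply] at b2
      funext r
      obtain ⟨-, a1, -, a2, a3⟩ := h1 r.1 r.2
      have := St_kill hρ a1 a2 a3 b2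
      rwa [MonoidHom.mem_ker, map_mul, map_inv, u2, u2, inv_mul_eq_one] at this
  rw [Nat.card_fun, Nat.card_fun, Nat.pow_le_pow_iff_right Finite.one_lt_card] at key
  simpa using key

/-- closeness of two numbers -/
def Near (γ : ℕ → ℕ) (a b : ℕ) : Prop := ∀ m, (a < m → b < γ m) ∧ (b < m → a < γ m)

variable (F) in
/-- closeness of two roots -/
def Cl (γ : ℕ → ℕ) (r r' : R) : Prop :=
  F.lay r = F.lay r' ∧ Near γ (F.lo r) (F.lo r') ∧ Near γ (F.hi r) (F.hi r')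

lemma Cl.symm {γ : ℕ → ℕ} {r r' : R} (h : F.Cl γ r r') : F.Cl γ r' r :=
  ⟨h.1.symm, fun m => (h.2.1 m).symm, fun m => (h.2.2 m).symm⟩

lemma Cl.lev {γ : ℕ → ℕ} {r r' : R} (h : F.Cl γ r r') (ks : List (LL × ℕ)) (m : ℕ) :
    (F.nlo (r, ks) < m → F.nlo (r', ks) < γ m + m) ∧
      (F.nhi (r, ks) < m → F.nhi (r', ks) < γ m + m) := by
  have h1 := (h.2.1 m).1
  have h2 := (h.2.2 m).1
  cases ks <;> simp only [nlo, nhi] <;> omega

lemma Cl.val {γ : ℕ → ℕ} {r r' : R} (h : F.Cl γ r r') :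
    ∀ {ks : List (LL × ℕ)}, F.val r ks → F.val r' ks
  | [], _ => trivial
  | [_], hv => ⟨hv.1.trans_eq h.1, trivial⟩
  | _ :: _ :: _, hv => ⟨hv.1, h.val hv.2⟩

open Classical in
lemma fin_tr {M : Type} [One M] (σ : S ≃ S') {A B : Nd R → Prop} {f : Nd R → M}
    (h : ∀ (r : S') ks, B (r, ks) → A (σ.symm r, ks)) (hf : {c | A c ∧ f c ≠ 1}.Finite) :
    {c | B c ∧ (if k : c.1 ∈ S' then f (σ.symm ⟨_, k⟩, c.2) else 1) ≠ 1}.Finite := by
  refine ((hf.preimage (f := fun a : S × List (LL × ℕ) => (a.1.1, a.2)) fun _ _ _ _ e => ?_).image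
    fun a => ((σ a.1).1, a.2)).subset ?_
  · exact Prod.ext (Subtype.ext (Prod.ext_iff.1 e).1) (Prod.ext_iff.1 e).2
  · rintro ⟨r, ks⟩ ⟨a1, a2⟩
    by_cases k : r ∈ S'
    · exact ⟨(σ.symm ⟨r, k⟩, ks), ⟨h ⟨r, k⟩ ks a1, fun e => a2 ((dif_pos k).trans e)⟩, by simp⟩
    · exact (a2 (dif_neg k)).elim

open Classical in
/-- transport along a bijection of roots -/
noncomputable def tr {γ : ℕ → ℕ} (σ : S ≃ S') (h : ∀ r : S', F.Cl γ r (σ.symm r)) (g : F.GG S) :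
    F.GG S' :=
  ⟨⟨(fun c => if k : c.1 ∈ S' then F.ea S (σ.symm ⟨_, k⟩, c.2) g else 1,
    fun c => if k : c.1 ∈ S' then F.ey S (σ.symm ⟨_, k⟩, c.2) g else 1),
    fun m => fin_tr σ (fun r ks => ((h r).lev ks m).1) (g.1.2.1 _),
    fun m => fin_tr σ (fun r ks => ((h r).lev ks m).2) (g.1.2.2.1 _), fun c hc => by
      by_cases k : c.1 ∈ S'
      · simp only [dif_pos k]
        exact e_not (fun h' => hc ((h ⟨_, k⟩).symm.val h'.2)) g
      · simp [dif_neg k], fun c => by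
      by_cases k : c.1 ∈ S'
      · simp only [dif_pos k]
        exact e_rel ((σ.symm ⟨_, k⟩).1, c.2) g
      · simp [dif_neg k]⟩, fun c k => ⟨dif_neg k, dif_neg k⟩⟩

lemma ea_tr {γ : ℕ → ℕ} (σ : S ≃ S') (h : ∀ r : S', F.Cl γ r (σ.symm r)) (g : F.GG S)
    (r : S') (ks : List (LL × ℕ)) :
    F.ea S' (r, ks) (tr σ h g) = F.ea S (σ.symm r, ks) g := dif_pos r.2

lemma ey_tr {γ : ℕ → ℕ} (σ : S ≃ S') (h : ∀ r : S', F.Cl γ r (σ.symm r)) (g : F.GG S)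
    (r : S') (ks : List (LL × ℕ)) :
    F.ey S' (r, ks) (tr σ h g) = F.ey S (σ.symm r, ks) g := dif_pos r.2

lemma GG_ext {g h : F.GG S} (e : ∀ (r : S) ks, F.ea S (r, ks) g = F.ea S (r, ks) h ∧
    F.ey S (r, ks) g = F.ey S (r, ks) h) : g = h := by
  have : ∀ c, F.ea S c g = F.ea S c h ∧ F.ey S c g = F.ey S c h := fun c => by
    by_cases k : c.1 ∈ S
    · exact e ⟨_, k⟩ c.2
    · exact ⟨(g.2 c k).1.trans (h.2 c k).1.symm, (g.2 c k).2.trans (h.2 c k).2.symm⟩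
  exact Subtype.ext (Subtype.ext (Prod.ext (funext fun c => (this c).1)
    (funext fun c => (this c).2)))

lemma tr_W {γ : ℕ → ℕ} (σ : S ≃ S') (h : ∀ r : S', F.Cl γ r (σ.symm r)) (m : ℕ) (g : F.GG S)
    (hg : g ∈ F.W S (γ m + m)) : tr σ h g ∈ F.W S' m := by
  refine mem_W.2 ⟨fun c hm => ?_, fun c hm => ?_⟩ <;> by_cases k : c.1 ∈ S'
  · exact (ea_tr σ h g ⟨_, k⟩ c.2).trans ((mem_W.1 hg).1 _ (((h ⟨_, k⟩).lev c.2 m).1 hm))
  · exact ((tr σ h g).2 c k).1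
  · exact (ey_tr σ h g ⟨_, k⟩ c.2).trans ((mem_W.1 hg).2 _ (((h ⟨_, k⟩).lev c.2 m).2 hm))
  · exact ((tr σ h g).2 c k).2

theorem uIso {γ : ℕ → ℕ} (σ : S ≃ S') (h : ∀ r : S, F.Cl γ r (σ r)) :
    UIso F.V (F.GG S) (F.GG S') := by
  have h' : ∀ r : S', F.Cl γ r (σ.symm r) := fun r => by simpa using (h (σ.symm r)).symm
  refine ⟨⟨⟨tr σ h', tr σ.symm h, fun g => GG_ext fun r ks => ?_,
    fun g => GG_ext fun r ks => ?_⟩, fun g k => GG_ext fun r ks => ?_⟩,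
    fun m => ⟨_, tr_W σ h' m⟩, fun m => ⟨_, tr_W σ.symm h m⟩⟩
  · simp only [ea_tr, ey_tr, Equiv.symm_symm, σ.symm_apply_apply, and_self]
  · simp only [ea_tr, ey_tr, Equiv.symm_symm, σ.apply_symm_apply, and_self]
  · simp only [map_mul, ea_tr, ey_tr, and_self]

lemma GG_complete (S : Set R) (h : ℕ → F.Amb) (h1 : ∀ m, h m ∈ F.GG S)
    (h2 : ∀ m m', m ≤ m' → (h m)⁻¹ * h m' ∈ F.V m) :
    ∃ g ∈ F.GG S, ∀ m, g⁻¹ * h m ∈ F.V m := by
  have e1 : ∀ c m, F.nlo c < m → (h (F.nlo c + 1)).1.1 c = (h m).1.1 c := fun c m hm =>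
    inv_mul_eq_one.1 ((h2 _ m hm).1 c (Nat.lt_succ_self _))
  have e2 : ∀ c m, F.nhi c < m → (h (F.nhi c + 1)).1.2 c = (h m).1.2 c := fun c m hm =>
    inv_mul_eq_one.1 ((h2 _ m hm).2 c (Nat.lt_succ_self _))
  refine ⟨⟨(fun c => (h (F.nlo c + 1)).1.1 c, fun c => (h (F.nhi c + 1)).1.2 c),
    fun m => ((h m).2.1 m).subset fun c hc => ⟨hc.1, e1 c m hc.1 ▸ hc.2⟩,
    fun m => ((h m).2.2.1 m).subset fun c hc => ⟨hc.1, e2 c m hc.1 ▸ hc.2⟩,
    fun c hc => ⟨((h _).2.2.2.1 c hc).1, ((h _).2.2.2.1 c hc).2⟩, fun c => ?_⟩,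
    fun c hc => ⟨(h1 _ c hc).1, (h1 _ c hc).2⟩,
    fun m => ⟨fun c hc => inv_mul_eq_one.2 (e1 c m hc), fun c hc => inv_mul_eq_one.2 (e2 c m hc)⟩⟩
  exact (e1 c _ (Nat.lt_succ_of_le (F.nlo_le c))).trans ((h _).2.2.2.2 c)

variable (F) in
/-- finitely supported elements -/
def Fs : Subgroup F.Amb where
  carrier := {d | (Function.mulSupport d.1.1).Finite ∧ (Function.mulSupport d.1.2).Finite}
  one_mem' := by simp
  mul_mem' ha hb := ⟨(ha.1.union hb.1).subset (Function.mulSupport_mul _ _),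
    (ha.2.union hb.2).subset (Function.mulSupport_mul _ _)⟩
  inv_mem' ha := by simpa using ha

lemma cnt_Fs [Countable R] [Countable Γ] [Countable P] : (F.Fs : Set F.Amb).Countable :=
  (cnt_fin.prod cnt_fin).preimage Subtype.val_injective

lemma exists_fin (g : F.GG S) (m : ℕ) : ∃ d : F.GG S, d.1 ∈ F.Fs ∧ d⁻¹ * g ∈ F.W S m := by
  have := W_normal (F := F) (S := S) m
  obtain ⟨d, hd, v, hv, rfl⟩ := Subgroup.mem_sup_of_normal_right.1
    (gen_mem (T := F.Fs.subgroupOf _ ⊔ F.W S m) (m := m) (g := g) le_sup_right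
    (fun c _ => Subgroup.mem_sup_left ⟨fin_anc _ _, fin_self _ _⟩)
    fun c q _ _ _ => Subgroup.mem_sup_left ⟨fin_anc _ _, fin_self _ _⟩)
  exact ⟨d, hd, by rwa [inv_mul_cancel_left]⟩

lemma cnt_quot [Countable R] [Countable Γ] [Countable P] (m : ℕ) : Countable (F.Amb ⧸ F.V m) := by
  have := (cnt_Fs (F := F)).to_subtype
  refine Function.Surjective.countable (f := fun g : F.Fs => (g.1 : F.Amb ⧸ F.V m)) fun q => ?_
  induction q using QuotientGroup.induction_on with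
  | H g =>
    obtain ⟨d, d1, d2⟩ := exists_fin (S := univ) ⟨g, fun _ h => (h trivial).elim⟩ m
    exact ⟨⟨d.1, d1⟩, QuotientGroup.eq.2 d2⟩

lemma measurable_GG [Countable R] [Countable Γ] [Countable P] {ρ : F.Amb →* SInf}
    (hρ : IsRep F.V ρ) {X : Type*} [MeasurableSpace X] (S : X → Set R)
    (hS : ∀ r, MeasurableSet {x | r ∈ S x}) {U : Set SInf} (hU : IsOpen U) :
    MeasurableSet {x | ∃ g ∈ (F.GG (S x)).map ρ, g ∈ U} := by
  have : {x | ∃ g ∈ (F.GG (S x)).map ρ, g ∈ U} = ⋃ d ∈ (F.Fs : Set F.Amb), ⋃ (_ : ρ d ∈ U),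
      ⋂ c : Nd R, ⋂ (_ : ¬ (d.1.1 c = 1 ∧ d.1.2 c = 1)), {x | c.1 ∈ S x} := by
    ext x
    simp only [mem_ofPred_eq, mem_iUnion, mem_iInter, exists_prop]
    constructor
    · rintro ⟨_, ⟨g, hg, rfl⟩, hgU⟩
      obtain ⟨n, hn⟩ := SInf_mem_nhds.1 (hU.mem_nhds hgU)
      obtain ⟨m, hm⟩ := hρ.h2 n
      obtain ⟨d, d1, d2⟩ := exists_fin ⟨g, hg⟩ m
      exact ⟨d.1, d1, hn _ fun i hi => ((agree_iff _ _ _).1 (hm _ d2) i hi).symm,
        fun c => not_imp_comm.1 (d.2 c)⟩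
    · rintro ⟨d, -, hdU, hd⟩
      exact ⟨ρ d, ⟨d, fun c => not_imp_comm.1 (hd c), rfl⟩, hdU⟩
  rw [this]
  exact MeasurableSet.biUnion cnt_Fs fun d _ => MeasurableSet.iUnion fun _ =>
    MeasurableSet.iInter fun a => MeasurableSet.iInter fun _ => hS _

end Forest

end Pool.Agent.P.MP_52b1ec_lc.NC

namespace Pool.Agent.P.MP_52b1ec_lc.NC

open Topology Filter Set Forest

/-- labels -/
structure Lab where
  n : ℕ
  k : ℕ
  u : Fin n → Bool
  s : Fin n → ℕ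
  H : Fin n → ℕ

instance : Countable Lab :=
  Function.Surjective.countable
    (f := fun a : Σ n : ℕ, ℕ × (Fin n → Bool) × (Fin n → ℕ) × (Fin n → ℕ) =>
      Lab.mk a.1 a.2.1 a.2.2.1 a.2.2.2.1 a.2.2.2.2) fun ⟨n, k, u, s, H⟩ => ⟨⟨n, k, u, s, H⟩, rfl⟩

noncomputable def cdL : Lab → ℕ := Classical.choose (exists_injective_nat Lab)

lemma cdL_inj : Function.Injective cdL := Classical.choose_spec (exists_injective_nat Lab)

/-- roots -/
abbrev Rt : Type := Σ l : Lab, (_ : Option (Fin l.n)) × (Fin l.n → ℕ)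

def Rt.lo : Rt → ℕ
  | ⟨l, none, _⟩ => l.n
  | ⟨l, some i, t⟩ =>
    max (l.n - (t i - l.s i)) (min (i + (t i - l.s i - (l.n + l.H i))) (l.k + l.n))

def Rt.hi : Rt → ℕ
  | ⟨l, none, _⟩ => l.k + l.n
  | ⟨l, some i, t⟩ => l.k + l.n + min (t i - l.s i - l.n) (l.H i)

lemma Rt.le_hi : ∀ r : Rt, r.1.k + r.1.n ≤ r.hi
  | ⟨_, none, _⟩ => le_rfl
  | ⟨_, some _, _⟩ => Nat.le_add_right _ _

lemma Rt.lo_le : ∀ r : Rt, r.lo ≤ r.1.k + r.1.n
  | ⟨_, none, _⟩ => Nat.le_add_left _ _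
  | ⟨_, some _, _⟩ => by simp only [Rt.lo]; omega

variable {Γ P : Type} [Group Γ] [CommGroup P] (D : Ext Γ P)

/-- the forest -/
noncomputable def FF : Forest Rt Γ P where
  toExt := D
  lay r := toLex (r.1.k, cdL r.1)
  lo := Rt.lo
  hi := Rt.hi
  le r := r.lo_le.trans r.le_hi

/-- extension of a finite sequence -/
def ex {A : Type} (d : A) {n : ℕ} (t : Fin n → A) (i : ℕ) : A := if h : i < n then t ⟨i, h⟩ else d

variable (φ : (ℕ → ℕ) → K × K)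

def UU (x : K) (l : Lab) (t : Fin l.n → ℕ) : Prop :=
  ∃ k, (∀ i, k ≤ t i) ∧ Chain φ l.n (ex 0 t) k (ex false l.u) x

def memX (x : K) : Rt → Prop
  | ⟨l, none, t⟩ => (∀ i, t i < l.s i) ∧ UU φ x l t
  | ⟨l, some i, t⟩ => l.s i ≤ t i ∧ ∀ j ≠ i, t j < l.s j

/-- the roots attached to a point -/
def SX (x : K) : Set Rt := {r | memX φ x r}

variable {φ}

lemma isOpen_SX (r : Rt) : IsOpen {x : K | r ∈ SX φ x} := by
  rw [isOpen_iff_mem_nhds]
  intro x hx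
  have : ∀ᶠ y in 𝓝 x, ∀ i ∈ Set.Iio r.1.n, y i = x i := by
    refine (eventually_all_finite (Set.finite_Iio _)).2 fun i _ => ?_
    have hc : Continuous (fun y : K => y i) := continuous_apply i
    exact ((isOpen_discrete {x i}).preimage hc).mem_nhds rfl
  refine this.mono fun y hy => ?_
  obtain ⟨l, _ | i, t⟩ := r
  · obtain ⟨h1, k, h2, h3⟩ := hx
    exact ⟨h1, k, h2, Chain.mono le_rfl (fun _ _ => le_rfl) h3 (Agree.refl _ _)
      fun i hi => (hy i hi).symm⟩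
  · exact hx

lemma UU_shift {z w : ℕ → ℕ} (h : ∀ i, z i < w i) {l : Lab} {t : Fin l.n → ℕ}
    (ht : UU φ (φ z).1 l t) : UU φ (φ z).2 l fun i => t i + w i := by
  obtain ⟨k, h1, h2⟩ := ht
  refine ⟨k + 1, fun i => ?_, Or.inr ⟨(φ z).1, Chain.mono le_rfl (fun i hi => ?_) h2
    (Agree.refl _ _) (Agree.refl _ _), z, fun i hi => ?_, Agree.refl _ _, Agree.refl _ _⟩⟩
  · have := h1 i
    have := h i
    simp only
    omega
  · simp [ex, hi]
  · have := h i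
    simp only [ex, hi, dite_true]
    omega

/-- the shift relation -/
def Sh (w : ℕ → ℕ) (l : Lab) (a b : (_ : Option (Fin l.n)) × (Fin l.n → ℕ)) : Prop :=
  (a.1 = none ∧ b = ⟨none, fun i => a.2 i + w i⟩) ∨
    ∃ i, b = ⟨some i, Function.update a.2 i (a.2 i + w i)⟩ ∧
      (a.1 = none ∧ a.2 i < l.s i ∨ a.1 = some i ∧ l.s i ≤ a.2 i)

lemma Sh.inj {w : ℕ → ℕ} {l : Lab} {a a' b} (h : Sh w l a b) (h' : Sh w l a' b) : a = a' := by
  obtain ⟨o, t⟩ := a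
  obtain ⟨o', t'⟩ := a'
  rcases h with ⟨rfl, rfl⟩ | ⟨i, rfl, h⟩ <;> rcases h' with ⟨rfl, h'⟩ | ⟨j, h', k⟩ <;>
    simp only [Sigma.mk.injEq, heq_eq_eq, reduceCtorEq, false_and, true_and,
      Option.some.injEq] at h' ⊢
  · exact funext fun i => Nat.add_right_cancel (congrFun h' i)
  · obtain ⟨rfl, h'⟩ := h'
    have e : t i = t' i := by simpa using congrFun h' i
    refine ⟨?_, funext fun j => ?_⟩
    · simp only at h k
      rcases h with h | h <;> rcases k with k | k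
      exacts [h.1.trans k.1.symm, by omega, by omega, h.1.trans k.1.symm]
    · by_cases hj : j = i
      · rw [hj, e]
      · simpa [hj] using congrFun h' j

lemma near_of {w : ℕ → ℕ} {a b : ℕ} (i : ℕ) (h1 : i ≤ a) (h2 : i ≤ b) (h3 : a ≤ b + w i)
    (h4 : b ≤ a + w i) : Near (fun m => m + ∑ j ∈ Finset.range m, w j) a b := fun m => by
  have : i < m → w i ≤ ∑ j ∈ Finset.range m, w j := fun h =>
    Finset.single_le_sum (fun _ _ => Nat.zero_le _) (Finset.mem_range.2 h)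
  simp only
  omega

lemma Sh.cl {w : ℕ → ℕ} {l : Lab} {a b} (h : Sh w l a b) :
    (FF D).Cl (fun m => m + ∑ j ∈ Finset.range m, w j) ⟨l, a⟩ ⟨l, b⟩ := by
  obtain ⟨o, t⟩ := a
  rcases h with ⟨rfl, rfl⟩ | ⟨i, rfl, ⟨rfl, h⟩ | ⟨rfl, h⟩⟩
  · exact ⟨rfl, near_of 0 (Nat.zero_le _) (Nat.zero_le _) (Nat.le_add_right _ _)
      (Nat.le_add_right _ _), near_of 0 (Nat.zero_le _) (Nat.zero_le _) (Nat.le_add_right _ _)
      (Nat.le_add_right _ _)⟩
  all_goals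
    have := i.2
    refine ⟨rfl, near_of i ?_ ?_ ?_ ?_, near_of i ?_ ?_ ?_ ?_⟩ <;>
      simp only [FF, Rt.lo, Rt.hi, Function.update_self] at h ⊢ <;> omega

lemma exists_sh {z w : ℕ → ℕ} (h : ∀ i, z i < w i) (r : Rt) (hr : r ∈ SX φ (φ z).1) :
    ∃ b, ⟨r.1, b⟩ ∈ SX φ (φ z).2 ∧ Sh w r.1 r.2 b := by
  obtain ⟨l, _ | i, t⟩ := r
  · by_cases k : ∃ i, l.s i ≤ t i + w i
    · obtain ⟨i, hi⟩ := k
      exact ⟨⟨some i, Function.update t i (t i + w i)⟩,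
        ⟨by simpa using hi, fun j hj => by simpa [hj] using hr.1 j⟩,
        Or.inr ⟨i, rfl, Or.inl ⟨rfl, hr.1 i⟩⟩⟩
    · push Not at k
      exact ⟨⟨none, fun i => t i + w i⟩, ⟨k, UU_shift h hr.2⟩, Or.inl ⟨rfl, rfl⟩⟩
  · exact ⟨⟨some i, Function.update t i (t i + w i)⟩, ⟨by simpa using hr.1.trans (Nat.le_add_right _ _),
      fun j hj => by simpa [hj] using hr.2 j hj⟩, Or.inr ⟨i, rfl, Or.inr ⟨rfl, hr.1⟩⟩⟩

lemma exists_inj {z w : ℕ → ℕ} (h : ∀ i, z i < w i) {x y : K} (hz : φ z = (x, y)) :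
    ∃ f : SX φ x → SX φ y, Function.Injective f ∧
      ∀ r, (FF D).Cl (fun m => m + ∑ j ∈ Finset.range m, w j) r.1 (f r).1 := by
  have := exists_sh (φ := φ) h
  rw [hz] at this
  choose b h1 h2 using this
  refine ⟨fun r => ⟨_, h1 r.1 r.2⟩, ?_, fun r => (h2 r.1 r.2).cl D⟩
  rintro ⟨⟨l, a⟩, ha⟩ ⟨⟨l', a'⟩, ha'⟩ e
  have e' : (⟨l, b _ ha⟩ : Rt) = ⟨l', b _ ha'⟩ := congrArg Subtype.val e
  obtain ⟨rfl, e''⟩ := Sigma.mk.inj_iff.1 e'
  obtain rfl : a = a' := (h2 _ ha).inj (eq_of_heq e'' ▸ h2 _ ha')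
  rfl

lemma uIso_FF {x y : K} {z z' : ℕ → ℕ} (hz : φ z = (x, y)) (hz' : φ z' = (y, x)) :
    UIso (FF D).V ((FF D).GG (SX φ x)) ((FF D).GG (SX φ y)) := by
  obtain ⟨f, f1, f2⟩ := exists_inj D (w := fun i => z i + z' i + 1) (fun i => by omega) hz
  obtain ⟨g, g1, g2⟩ := exists_inj D (w := fun i => z i + z' i + 1) (fun i => by omega) hz'
  obtain ⟨h, hb, hR⟩ := Function.Embedding.schroeder_bernstein_of_rel f1 g1
    (fun a b => (FF D).Cl _ a.1 b.1) f2 fun b => (g2 b).symm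
  exact uIso (Equiv.ofBijective h hb) hR

/-- an initial piece of a lane -/
def arm (l : Lab) (i : Fin l.n) (L : ℕ) : Finset (Fin l.n → ℕ) :=
  Fintype.piFinset
    (Function.update (fun j => Finset.range (l.s j)) i (Finset.Ico (l.s i) (l.s i + L)))

lemma mem_arm {l : Lab} {i : Fin l.n} {L : ℕ} {t : Fin l.n → ℕ} :
    t ∈ arm l i L ↔ (l.s i ≤ t i ∧ t i < l.s i + L) ∧ ∀ j ≠ i, t j < l.s j := by
  rw [arm, Fintype.mem_piFinset, Function.forall_update_iff _ fun j T => t j ∈ T]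
  simp

lemma card_arm (l : Lab) (i : Fin l.n) (L : ℕ) :
    (arm l i L).card = L * ∏ j ∈ Finset.univ.erase i, l.s j := by
  rw [arm, Fintype.card_piFinset, ← Finset.mul_prod_erase _ _ (Finset.mem_univ i)]
  congr 1
  · simp
  · exact Finset.prod_congr rfl fun j hj => by simp [Finset.ne_of_mem_erase hj]

lemma count_lt {n : ℕ} (s c : Fin n → ℕ) (h : ∀ i : Fin n, 2 ^ (i.1 + 2) * c i < s i) :
    ∑ i, c i * ∏ j ∈ Finset.univ.erase i, s j < ∏ j, s j := by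
  have hM : (0 : ℝ) < (∏ j, s j : ℕ) :=
    Nat.cast_pos.2 (Finset.prod_pos fun i _ => Nat.zero_lt_of_lt (h i))
  have h1 : ∀ i : Fin n, ((c i * ∏ j ∈ Finset.univ.erase i, s j : ℕ) : ℝ) ≤
      (∏ j, s j : ℕ) / 4 * (1 / 2) ^ i.1 := fun i => by
    have : 2 ^ (i.1 + 2) * (c i * ∏ j ∈ Finset.univ.erase i, s j) ≤ ∏ j, s j := by
      rw [← Finset.mul_prod_erase _ _ (Finset.mem_univ i), ← mul_assoc]
      exact Nat.mul_le_mul_right _ (h i).le
    have h2 := (Nat.cast_le (α := ℝ)).2 this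
    rw [Nat.cast_mul, Nat.cast_pow, Nat.cast_ofNat, pow_add] at h2
    rw [one_div, inv_pow, ← div_eq_mul_inv, div_div, le_div_iff₀ (by positivity)]
    linarith
  have h2 := Finset.sum_le_sum fun i (_ : i ∈ Finset.univ) => h1 i
  rw [← Finset.mul_sum, Fin.sum_univ_eq_sum_range (fun i => (1 / 2 : ℝ) ^ i), ← Nat.cast_sum] at h2
  have h3 := sum_geometric_two_le n
  exact (Nat.cast_lt (α := ℝ)).1 (by nlinarith)

lemma exists_heights (γ : ℕ → ℕ) (B n : ℕ) : ∃ Y : Fin n → ℕ, (∀ i, B < Y i) ∧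
    ∀ i j, i < j → B + γ (Y j) < Y i := by
  let V : ℕ → ℕ := fun a => Nat.rec (B + 1) (fun _ v => v + γ v + B + 1) a
  have h1 : ∀ a, V (a + 1) = V a + γ (V a) + B + 1 := fun _ => rfl
  have h2 : Monotone V := monotone_nat_of_le_succ fun a => by rw [h1]; omega
  refine ⟨fun i => V (n - i), fun i => h2 (Nat.zero_le _), fun i j hij => ?_⟩
  have := h2 (show n - j + 1 ≤ n - i by have := j.2; have : i.1 < j.1 := hij; omega)
  rw [h1] at this
  simp only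
  omega

lemma hall_FF [Finite P] [Nontrivial P] {x y : K}
    (θ : (FF D).GG (SX φ x) ≃* (FF D).GG (SX φ y)) {γ : ℕ → ℕ}
    (g1 : ∀ k, ∀ g ∈ (FF D).W _ (γ k), θ g ∈ (FF D).W _ k)
    (g2 : ∀ k, ∀ g ∈ (FF D).W _ (γ k), θ.symm g ∈ (FF D).W _ k) (l : Lab) (Y : Fin l.n → ℕ)
    (a1 : ∀ i : Fin l.n, 2 ^ (i.1 + 2) * γ (i + 1) < l.s i) (a2 : γ (γ (l.n + 1)) ≤ l.k)
    (a3 : γ (l.n + 1) ≤ l.k) (a4 : ∀ i : Fin l.n, γ (i + 1) ≤ l.k) (a5 : ∀ i, l.H i = γ (Y i))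
    (a6 : ∀ i, l.k + l.n < Y i) (a7 : ∀ i j, i < j → l.k + l.n + γ (Y j) < Y i)
    (a8 : ∀ t, UU φ x l t) : ∃ t, (∀ i, t i < l.s i) ∧ UU φ y l t := by
  by_contra hc
  let T : Option (Fin l.n) → Finset (Fin l.n → ℕ) := fun o =>
    o.elim (Fintype.piFinset fun j => Finset.range (l.s j)) fun i => arm l i (l.n + l.H i + 1)
  let T' : Option (Fin l.n) → Finset (Fin l.n → ℕ) := fun o =>
    o.elim ∅ fun i => arm l i (l.n + l.H i + 1 + γ (i + 1))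
  have key := hall (F := FF D) θ g1 g2 (ρ := toLex (l.k, cdL l)) (ρ' := toLex (l.k, cdL l + 1))
    (Prod.Lex.toLex_lt_toLex.2 (Or.inr ⟨rfl, Nat.lt_succ_self _⟩))
    (fun β h => Prod.Lex.le_iff.2 (Prod.Lex.lt_iff.1 h)) (m0 := l.n + 1) (Y := Y)
    (m := fun i => i + 1) ((Finset.univ.sigma T).map (Function.Embedding.sigmaMk l))
    ((Finset.univ.sigma T').map (Function.Embedding.sigmaMk l)) ?_ ?_ ?_
  · have := count_lt l.s (fun i => γ (i + 1)) a1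
    simp only [Finset.card_map, Finset.card_sigma, Fintype.sum_option, T, T', Option.elim,
      card_arm, Fintype.card_piFinset, Finset.card_range, Finset.card_empty, add_mul,
      Finset.sum_add_distrib] at key
    omega
  · intro r hr
    obtain ⟨⟨o, t⟩, h, rfl⟩ := Finset.mem_map.1 hr
    have h' := (Finset.mem_sigma.1 h).2
    refine ⟨?_, rfl, a2.trans ((Nat.le_add_right _ _).trans (Rt.le_hi ⟨l, o, t⟩)), ?_⟩
    · rcases o with _ | i
      · exact ⟨fun i => Finset.mem_range.1 (Fintype.mem_piFinset.1 h' i), a8 t⟩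
      · exact ⟨(mem_arm.1 h').1.1, (mem_arm.1 h').2⟩
    · rcases o with _ | j
      · exact ⟨Nat.lt_succ_self _, fun i hi => absurd (a6 i) (not_lt.2 hi)⟩
      · have b1 := (mem_arm.1 h').1
        have b2 := j.2
        refine ⟨?_, fun i => ?_⟩
        · simp only [FF, Rt.lo, Function.Embedding.sigmaMk_apply] at b1 ⊢
          omega
        · have b3 : i.1 < j.1 → _ := a7 i j
          have := a6 i
          have := a5 j
          simp only [FF, Rt.lo, Rt.hi, Function.Embedding.sigmaMk_apply] at b1 ⊢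
          omega
  · intro r _ h
    have b1 : l.k < r.1.k ∨ l.k = r.1.k ∧ _ := Prod.Lex.toLex_lt_toLex.1 h
    have : r.1.k + r.1.n ≤ (FF D).hi r := r.le_hi
    omega
  · rintro ⟨l', o, t⟩ hr h - h2
    obtain rfl : l' = l := cdL_inj (congrArg (fun a : LL => (ofLex a).2) h)
    refine Finset.mem_map.2 ⟨⟨o, t⟩, Finset.mem_sigma.2 ⟨Finset.mem_univ _, ?_⟩, rfl⟩
    rcases o with _ | i
    · exact (hc ⟨t, hr⟩).elim
    · refine mem_arm.2 ⟨⟨hr.1, ?_⟩, hr.2⟩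
      have b1 := h2 i
      have := a4 i
      have := a5 i
      simp only [FF, Rt.lo, Rt.hi] at b1 ⊢
      omega

lemma rel_FF [Finite P] [Nontrivial P] (hφ : Continuous φ) {E : K → K → Prop}
    (hE : Equivalence E) (hr : ∀ z, E (φ z).1 (φ z).2) {x y : K}
    (h : UIso (FF D).V ((FF D).GG (SX φ x)) ((FF D).GG (SX φ y))) : E x y := by
  obtain ⟨θ, h1, h2⟩ := h
  choose γ1 h1 using h1
  choose γ2 h2 using h2
  let γ : ℕ → ℕ := fun m => max (γ1 m) (γ2 m)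
  refine chain_limit hφ hE hr (α := fun i => 2 ^ (i + 2) * γ (i + 1) + 1)
    (k := 2 ^ 2 * γ 1 + 1) fun n => ?_
  let k := γ (γ (n + 2)) + γ (n + 2) + ∑ i : Fin (n + 1), γ (i + 1)
  obtain ⟨Y, y1, y2⟩ := exists_heights γ (k + (n + 1)) (n + 1)
  obtain ⟨t, t1, j, t2, t3⟩ := hall_FF D θ (γ := γ)
    (fun m g hg => h1 m g ((FF D).V_anti (le_max_left _ _) hg))
    (fun m g hg => h2 m g ((FF D).V_anti (le_max_right _ _) hg))
    ⟨n + 1, k, fun i => x i, fun i => 2 ^ (i.1 + 2) * γ (i + 1) + 1, fun i => γ (Y i)⟩ Y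
    (fun i => Nat.lt_succ_self _) ((Nat.le_add_right _ _).trans (Nat.le_add_right _ _))
    ((Nat.le_add_left _ _).trans (Nat.le_add_right _ _))
    (fun i => (Finset.single_le_sum (f := fun i : Fin (n + 1) => γ (i + 1))
      (fun _ _ => Nat.zero_le _) (Finset.mem_univ i)).trans (Nat.le_add_left _ _))
    (fun _ => rfl) y1 y2 fun t => ⟨0, fun _ => Nat.zero_le _, fun i hi => dif_pos hi⟩
  refine Chain.mono (Nat.le_succ n) (fun i hi => ?_) (t3.mono_len ((t2 0).trans (t1 0).le))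
    (fun i hi => dif_pos (Nat.lt_succ_of_lt hi)) (Agree.refl _ _)
  exact (dif_pos (Nat.lt_succ_of_lt hi)).trans_le (t1 ⟨i, Nat.lt_succ_of_lt hi⟩).le

end Pool.Agent.P.MP_52b1ec_lc.NC
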