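import Pool.Agent.P.MP_52b1ec_lc.Effros

namespace Pool.Agent.P.MP_52b1ec_lc.NC

open Topology Filter Set

variable {Γ : Type} [Group Γ]

/-- a representation whose induced topology has the given subgroups as a base -/
structure IsRep (V : ℕ → Subgroup Γ) (ρ : Γ →* SInf) : Prop where
  h1 : ∀ m, ∃ n, ∀ g, (∀ i < n, ap (ρ g) i = i) → g ∈ V m
  h2 : ∀ n, ∃ m, ∀ g ∈ V m, ∀ i < n, ap (ρ g) i = i

theorem exists_rep (V : ℕ → Subgroup Γ) (hV : Antitone V) (hn : ∀ m, (V m).Normal)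
    (hc : ∀ m, Countable (Γ ⧸ V m)) : ∃ ρ : Γ →* SInf, IsRep V ρ := by
  let Ω : Type := Σ m : ℕ, Γ ⧸ V m
  have : Countable Ω := inferInstance
  have : Infinite Ω := Infinite.of_injective (fun m : ℕ => (⟨m, ((1 : Γ) : Γ ⧸ V m)⟩ : Ω))
    (fun a b h => congrArg Sigma.fst h)
  obtain ⟨e⟩ : Nonempty (Ω ≃ ℕ) := nonempty_equiv_of_countable
  let ρ : Γ →* Equiv.Perm ℕ := (e.permCongrHom : Equiv.Perm Ω →* Equiv.Perm ℕ).comp
    (MulAction.toPermHom Γ Ω)
  have hρ : ∀ g j, ap (ρ g) j = e (g • e.symm j) := fun g j => rfl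
  have key : ∀ (g : Γ) (ω : Ω), g • ω = ω ↔ g ∈ V ω.1 := by
    rintro g ⟨m, q⟩
    induction q using QuotientGroup.induction_on with
    | H x =>
      rw [Sigma.smul_mk, Sigma.mk.inj_iff]
      simp only [true_and, heq_eq_eq]
      rw [MulAction.Quotient.smul_mk, QuotientGroup.eq, smul_eq_mul]
      rw [mul_inv_rev, mul_assoc, (hn m).mem_comm_iff, mul_assoc, mul_inv_cancel, mul_one,
        inv_mem_iff]
  have key2 : ∀ g j, ap (ρ g) j = j ↔ g ∈ V (e.symm j).1 := by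
    intro g j
    rw [hρ, ← key, ← e.eq_symm_apply]
  refine ⟨ρ, fun m => ⟨e ⟨m, (1 : Γ)⟩ + 1, fun g hg => ?_⟩, fun n => ?_⟩
  · have := (key2 g _).1 (hg _ (Nat.lt_succ_self _))
    rwa [e.symm_apply_apply] at this
  · refine ⟨(Finset.range n).sup (fun j => (e.symm j).1), fun g hg i hi => (key2 g i).2 ?_⟩
    exact hV (Finset.le_sup (f := fun j => (e.symm j).1) (Finset.mem_range.2 hi)) hg

variable {V : ℕ → Subgroup Γ} {ρ : Γ →* SInf}

lemma agree_iff (g h : Γ) (n : ℕ) :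
    (∀ i < n, ap (ρ (g⁻¹ * h)) i = i) ↔ ∀ i < n, ap (ρ h) i = ap (ρ g) i := by
  refine forall₂_congr fun i _ => ?_
  rw [map_mul, map_inv, ap_mul]
  constructor
  · intro e
    have := congrArg (ap (ρ g)) e
    rwa [ap_ap_inv] at this
  · intro e
    rw [e, ap_inv_ap]

lemma IsRep.injective (hρ : IsRep V ρ) (hb : ∀ g, (∀ m, g ∈ V m) → g = 1) :
    Function.Injective ρ := by
  rw [injective_iff_map_eq_one]
  intro g hg
  refine hb g fun m => ?_
  obtain ⟨n, hn⟩ := hρ.h1 m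
  exact hn g fun i _ => by rw [hg]; rfl

lemma IsRep.isClosed (hρ : IsRep V ρ) (H : Subgroup Γ)
    (hH : ∀ h : ℕ → Γ, (∀ m, h m ∈ H) → (∀ m m', m ≤ m' → (h m)⁻¹ * h m' ∈ V m) →
      ∃ g ∈ H, ∀ m, g⁻¹ * h m ∈ V m) : IsClosed ((H.map ρ : Subgroup SInf) : Set SInf) := by
  apply isClosed_of_closure_subset
  intro σ hσ
  rw [SInf_mem_closure] at hσ
  have hσ' : ∀ n, ∃ h ∈ H, ∀ i < n, ap (ρ h) i = ap σ i := by
    intro n
    obtain ⟨_, ⟨h, hh, rfl⟩, hh'⟩ := hσ n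
    exact ⟨h, hh, hh'⟩
  choose k hk hk' using hσ'
  choose nn hnn using hρ.h1
  let N : ℕ → ℕ := fun m => (Finset.range (m + 1)).sup nn
  have hN : ∀ m m', m ≤ m' → nn m ≤ N m' := fun m m' h =>
    Finset.le_sup (f := nn) (Finset.mem_range.2 (Nat.lt_succ_of_le h))
  have hkk : ∀ m a b, nn m ≤ a → nn m ≤ b → (k a)⁻¹ * k b ∈ V m := by
    intro m a b ha hb
    apply hnn m
    rw [agree_iff]
    intro i hi
    rw [hk' a i (lt_of_lt_of_le hi ha), hk' b i (lt_of_lt_of_le hi hb)]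
  obtain ⟨g, hg, hg'⟩ := hH (fun m => k (N m)) (fun m => hk _)
    (fun m m' h => hkk m _ _ (hN m m le_rfl) (hN m m' h))
  refine ⟨g, hg, ?_⟩
  apply ap_injective
  funext j
  obtain ⟨m, hm⟩ := hρ.h2 (j + 1)
  have h1 : g⁻¹ * k (max (nn m) (j + 1)) ∈ V m := by
    have := (V m).mul_mem (hg' m) (hkk m _ (max (nn m) (j + 1)) (hN m m le_rfl) (le_max_left _ _))
    simpa [mul_assoc] using this
  have h2 := (agree_iff _ _ _).1 (hm _ h1) j (Nat.lt_succ_self j)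
  rw [← h2, hk' _ j (lt_of_lt_of_le (Nat.lt_succ_self j) (le_max_right _ _))]

lemma IsRep.cont_iff (hρ : IsRep V ρ) {H H' : Subgroup Γ} (θ : H →* H')
    (Θ : (H.map ρ) →* (H'.map ρ))
    (hΘ : ∀ g : H, (Θ ⟨ρ g, Subgroup.mem_map_of_mem _ g.2⟩).1 = ρ (θ g)) :
    Continuous Θ ↔ ∀ m, ∃ m', ∀ g : H, g.1 ∈ V m' → (θ g).1 ∈ V m := by
  rw [hom_continuous_iff]
  constructor
  · intro h m
    obtain ⟨n, hn⟩ := hρ.h1 m
    obtain ⟨n', hn'⟩ := h n
    obtain ⟨m', hm'⟩ := hρ.h2 n'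
    refine ⟨m', fun g hg => hn _ ?_⟩
    rw [← hΘ]
    exact hn' ⟨ρ g, Subgroup.mem_map_of_mem _ g.2⟩ (hm' _ hg)
  · intro h n
    obtain ⟨m, hm⟩ := hρ.h2 n
    obtain ⟨m', hm'⟩ := h m
    obtain ⟨n', hn'⟩ := hρ.h1 m'
    refine ⟨n', ?_⟩
    rintro ⟨_, g, hg, rfl⟩ hfix
    have := hΘ ⟨g, hg⟩
    simp only at this
    rw [this]
    exact hm _ (hm' ⟨g, hg⟩ (hn' _ hfix))

/-- isomorphism with moduli of continuity -/
def UIso (V : ℕ → Subgroup Γ) (H H' : Subgroup Γ) : Prop :=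
  ∃ θ : H ≃* H', (∀ m, ∃ m', ∀ g : H, g.1 ∈ V m' → (θ g).1 ∈ V m) ∧
    (∀ m, ∃ m', ∀ g : H', g.1 ∈ V m' → (θ.symm g).1 ∈ V m)

lemma IsRep.iso_iff (hρ : IsRep V ρ) (hi : Function.Injective ρ) (H H' : Subgroup Γ) :
    Nonempty ((H.map ρ) ≃ₜ* (H'.map ρ)) ↔ UIso V H H' := by
  let e := H.equivMapOfInjective ρ hi
  let e' := H'.equivMapOfInjective ρ hi
  have he : ∀ g : H, (⟨ρ g, Subgroup.mem_map_of_mem _ g.2⟩ : H.map ρ) = e g := fun g => rfl
  have he' : ∀ g : H', (⟨ρ g, Subgroup.mem_map_of_mem _ g.2⟩ : H'.map ρ) = e' g := fun g => rfl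
  have hv : ∀ g : H, ρ g = (e g).1 := fun g => rfl
  have hv' : ∀ g : H', ρ g = (e' g).1 := fun g => rfl
  constructor
  · rintro ⟨Θ⟩
    refine ⟨e.trans (Θ.toMulEquiv.trans e'.symm), ?_, ?_⟩
    · refine (hρ.cont_iff (e.trans (Θ.toMulEquiv.trans e'.symm)).toMonoidHom
        (Θ : (H.map ρ) →* (H'.map ρ)) fun g => ?_).1 (map_continuous Θ)
      rw [he, hv']
      simp
      rfl
    · refine (hρ.cont_iff (e.trans (Θ.toMulEquiv.trans e'.symm)).symm.toMonoidHom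
        (Θ.symm : (H'.map ρ) →* (H.map ρ)) fun g => ?_).1 (map_continuous Θ.symm)
      rw [he', hv]
      simp
      rfl
  · rintro ⟨θ, h1, h2⟩
    refine ⟨{ toMulEquiv := e.symm.trans (θ.trans e'), continuous_toFun := ?_,
              continuous_invFun := ?_ }⟩
    · refine (hρ.cont_iff θ.toMonoidHom (e.symm.trans (θ.trans e')).toMonoidHom fun g => ?_).2 h1
      rw [he, hv']
      simp
    · refine (hρ.cont_iff θ.symm.toMonoidHom (e.symm.trans (θ.trans e')).symm.toMonoidHom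
        fun g => ?_).2 h2
      rw [he', hv]
      simp

lemma IsRep.proCountable (hρ : IsRep V ρ) (hn : ∀ m, (V m).Normal) {G : CS} {H : Subgroup Γ}
    (h : G.toSubgroup = H.map ρ) : G ∈ ProCountable := by
  rw [mem_proCountable_iff]
  intro n
  obtain ⟨k, hk⟩ := hρ.h2 n
  obtain ⟨m, hm⟩ := hρ.h1 k
  refine ⟨m, fun a ha b hb hf => ?_⟩
  obtain ⟨a, -, rfl⟩ : a ∈ H.map ρ := h ▸ ha
  obtain ⟨b, -, rfl⟩ : b ∈ H.map ρ := h ▸ hb
  rw [← map_inv, ← map_mul, ← map_mul]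
  exact hk _ ((hn k).conj_mem b (hm b hf) a)

end Pool.Agent.P.MP_52b1ec_lc.NC

namespace Pool.Agent.P.MP_52b1ec_lc.NC

open Topology Filter Set
open scoped commutatorElement

/-- layers: the ordinals below `ω²` -/
abbrev LL : Type := ℕ ×ₗ ℕ

instance : Countable LL := inferInstanceAs (Countable (ℕ × ℕ))

section Derived

variable {H H' : Type} [Group H] [Group H'] (p : ℕ)

/-- generated by the commutators and the central `p`-torsion modulo `W` -/
def D0 (W : Subgroup H) : Subgroup H :=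
  Subgroup.closure {g : H | ((∀ h : H, ⁅g, h⁆ ∈ W) ∧ g ^ p ∈ W) ∨ ∃ a b : H, g = ⁅a, b⁆}

/-- the derived towers -/
noncomputable def Dv (W : ℕ → Subgroup H) : LL → ℕ → Subgroup H :=
  (wellFounded_lt (α := LL)).fix fun ρ ih m =>
    D0 p (W m) ⊓ ⨅ β, ⨅ h : β < ρ, ⨅ j, (ih β h j ⊔ W m)

variable {p} {W : ℕ → Subgroup H}

lemma mem_Dv {ρ : LL} {m : ℕ} {g : H} :
    g ∈ Dv p W ρ m ↔ g ∈ D0 p (W m) ∧ ∀ β < ρ, ∀ j, g ∈ Dv p W β j ⊔ W m := by
  rw [Dv, WellFounded.fix_eq]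
  simp only [Subgroup.mem_inf, Subgroup.mem_iInf]

lemma mem_D0 {U : Subgroup H} {g : H} (h1 : ∀ h : H, ⁅g, h⁆ ∈ U) (h2 : g ^ p ∈ U) : g ∈ D0 p U :=
  Subgroup.subset_closure (Or.inl ⟨h1, h2⟩)

lemma comm_D0 (U : Subgroup H) (a b : H) : ⁅a, b⁆ ∈ D0 p U :=
  Subgroup.subset_closure (Or.inr ⟨a, b, rfl⟩)

lemma W_le_Dv (ρ : LL) (m : ℕ) (hn : (W m).Normal) : W m ≤ Dv p W ρ m := fun g hg =>
  mem_Dv.2 ⟨mem_D0 (fun h => by
    rw [commutatorElement_def, mul_assoc, mul_assoc, ← mul_assoc h]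
    exact (W m).mul_mem hg (hn.conj_mem _ ((W m).inv_mem hg) h)) ((W m).pow_mem hg p),
    fun _ _ _ => Subgroup.mem_sup_right hg⟩

lemma tors_Dv {g : H} (hg : ∀ j, g ∈ D0 p (W j)) (ρ : LL) : ∀ m, g ∈ Dv p W ρ m := by
  induction ρ using WellFoundedLT.induction with
  | ind ρ ih => exact fun m => mem_Dv.2 ⟨hg m, fun β hβ j => Subgroup.mem_sup_left (ih β hβ j)⟩

lemma map_D0 (θ : H →* H') (hs : Function.Surjective θ) {U : Subgroup H} {U' : Subgroup H'}
    (h : ∀ g ∈ U, θ g ∈ U') : D0 p U ≤ (D0 p U').comap θ := by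
  refine (Subgroup.closure_le _).2 ?_
  rintro g (⟨h1, h2⟩ | ⟨a, b, rfl⟩)
  · refine mem_D0 (fun k => ?_) (map_pow θ g p ▸ h _ h2)
    obtain ⟨k, rfl⟩ := hs k
    exact map_commutatorElement θ g k ▸ h _ (h1 k)
  · exact Subgroup.mem_comap.2 (map_commutatorElement θ a b ▸ comm_D0 U' (θ a) (θ b))

lemma map_Dv {W' : ℕ → Subgroup H'} (θ : H →* H') (hs : Function.Surjective θ) {γ : ℕ → ℕ}
    (h : ∀ m, ∀ g ∈ W (γ m), θ g ∈ W' m) (ρ : LL) :
    ∀ m, ∀ g ∈ Dv p W ρ (γ m), θ g ∈ Dv p W' ρ m := by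
  induction ρ using WellFoundedLT.induction with
  | ind ρ ih =>
    intro m g hg
    obtain ⟨h1, h2⟩ := mem_Dv.1 hg
    refine mem_Dv.2 ⟨map_D0 θ hs (h m) h1, fun β hβ j => ?_⟩
    exact (sup_le (c := (Dv p W' β j ⊔ W' m).comap θ)
      (fun a ha => Subgroup.mem_sup_left (ih β hβ j a ha))
      fun a ha => Subgroup.mem_sup_right (h m a ha)) (h2 β hβ (γ j))

end Derived

/-- a group with an abelian quotient of exponent `p` that kills the central `p`-torsion -/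
structure Ext (Γ P : Type) [Group Γ] [CommGroup P] where
  p : ℕ
  π : Γ →* P
  surj : Function.Surjective π
  hP : ∀ x : P, x ^ p = 1
  hZ : ∀ q : Γ, (∀ h : Γ, ⁅q, h⁆ = 1) → q ^ p = 1 → π q = 1

/-- roots of trees of bars -/
structure Forest (R Γ P : Type) [Group Γ] [CommGroup P] extends Ext Γ P where
  lay : R → LL
  lo : R → ℕ
  hi : R → ℕ
  le : ∀ r, lo r ≤ hi r

/-- nodes -/
abbrev Nd (R : Type) : Type := R × List (LL × ℕ)

lemma fin_mul {I M : Type} [Monoid M] {A : I → Prop} {f g : I → M} (hf : {c | A c ∧ f c ≠ 1}.Finite)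
    (hg : {c | A c ∧ g c ≠ 1}.Finite) : {c | A c ∧ f c * g c ≠ 1}.Finite :=
  (hf.union hg).subset fun c hc => by
    by_contra h
    simp only [mem_union, mem_ofPred_eq, hc.1, true_and, not_or, not_not] at h
    exact hc.2 (by rw [h.1, h.2, one_mul])

namespace Forest

variable {R Γ P : Type} [Group Γ] [CommGroup P] (F : Forest R Γ P)

def nlay : Nd R → LL
  | (r, []) => F.lay r
  | (_, a :: _) => a.1

def nhi (c : Nd R) : ℕ := F.hi c.1 + (c.2.map Prod.snd).sum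

def nlo : Nd R → ℕ
  | (r, []) => F.lo r
  | (r, _ :: ks) => F.nhi (r, ks)

def val (r : R) : List (LL × ℕ) → Prop
  | [] => True
  | a :: ks => a.1 < F.nlay (r, ks) ∧ val r ks

lemma nhi_cons (r : R) (a : LL × ℕ) (ks : List (LL × ℕ)) :
    F.nhi (r, a :: ks) = F.nhi (r, ks) + a.2 := by
  simp only [nhi, List.map_cons, List.sum_cons]
  omega

lemma nlo_le : ∀ c : Nd R, F.nlo c ≤ F.nhi c
  | (r, []) => (F.le r).trans (Nat.le_add_right _ _)
  | (r, a :: ks) => by rw [nhi_cons]; exact Nat.le_add_right _ _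

lemma fin_child {g : Nd R → P} (h : ∀ m, {c | F.nlo c < m ∧ g c ≠ 1}.Finite) (c : Nd R) :
    (Function.mulSupport fun a => g (c.1, a :: c.2)).Finite :=
  ((h (F.nhi c + 1)).preimage (f := fun a => (c.1, a :: c.2))
    (fun _ _ _ _ h => by simpa using h)).subset fun _ ha => ⟨Nat.lt_succ_self _, ha⟩

/-- the ambient group -/
def Amb : Subgroup ((Nd R → P) × (Nd R → Γ)) where
  carrier := {g | (∀ m, {c | F.nlo c < m ∧ g.1 c ≠ 1}.Finite) ∧
    (∀ m, {c | F.nhi c < m ∧ g.2 c ≠ 1}.Finite) ∧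
    (∀ c : Nd R, ¬ F.val c.1 c.2 → g.1 c = 1 ∧ g.2 c = 1) ∧
    ∀ c : Nd R, g.1 c = F.π (g.2 c) * ∏ᶠ a, g.1 (c.1, a :: c.2)}
  one_mem' := by simp
  mul_mem' := by
    rintro g h ⟨g1, g2, g3, g4⟩ ⟨h1, h2, h3, h4⟩
    refine ⟨fun m => fin_mul (g1 m) (h1 m), fun m => fin_mul (g2 m) (h2 m),
      fun c hc => by simp [g3 c hc, h3 c hc], fun c => ?_⟩
    simp only [Prod.fst_mul, Prod.snd_mul, Pi.mul_apply]
    rw [finprod_mul_distrib (F.fin_child g1 c) (F.fin_child h1 c), g4 c, h4 c, map_mul,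
      mul_mul_mul_comm]
  inv_mem' := by
    rintro g ⟨g1, g2, g3, g4⟩
    refine ⟨by simpa using g1, by simpa using g2, by simpa using g3, fun c => ?_⟩
    simp only [Prod.fst_inv, Prod.snd_inv, Pi.inv_apply]
    rw [finprod_inv_distrib, g4 c, map_inv, mul_inv]

/-- the basic open subgroups -/
def V (m : ℕ) : Subgroup F.Amb where
  carrier := {g | (∀ c, F.nlo c < m → g.1.1 c = 1) ∧ ∀ c, F.nhi c < m → g.1.2 c = 1}
  one_mem' := ⟨fun _ _ => rfl, fun _ _ => rfl⟩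
  mul_mem' hg hh := ⟨fun c hc => by simp [hg.1 c hc, hh.1 c hc],
    fun c hc => by simp [hg.2 c hc, hh.2 c hc]⟩
  inv_mem' hg := ⟨fun c hc => by simp [hg.1 c hc], fun c hc => by simp [hg.2 c hc]⟩

lemma V_normal (m : ℕ) : (F.V m).Normal :=
  ⟨fun _ hg _ => ⟨fun c hc => by simp [hg.1 c hc], fun c hc => by simp [hg.2 c hc]⟩⟩

lemma V_anti : Antitone F.V := fun _ _ h _ hg =>
  ⟨fun c hc => hg.1 c (hc.trans_le h), fun c hc => hg.2 c (hc.trans_le h)⟩

lemma V_sep (g : F.Amb) (h : ∀ m, g ∈ F.V m) : g = 1 :=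
  Subtype.ext (Prod.ext (funext fun c => (h _).1 c (Nat.lt_succ_self _))
    (funext fun c => (h _).2 c (Nat.lt_succ_self _)))

/-- the group of a set of roots -/
def GG (S : Set R) : Subgroup F.Amb where
  carrier := {g | ∀ c : Nd R, c.1 ∉ S → g.1.1 c = 1 ∧ g.1.2 c = 1}
  one_mem' := fun _ _ => ⟨rfl, rfl⟩
  mul_mem' hg hh c hc := by simp [hg c hc, hh c hc]
  inv_mem' hg c hc := by simp [hg c hc]

/-- valid nodes -/
def Ok (S : Set R) (c : Nd R) : Prop := c.1 ∈ S ∧ F.val c.1 c.2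

/-- the basic open subgroups -/
def W (S : Set R) (m : ℕ) : Subgroup (F.GG S) := (F.V m).subgroupOf _

/-- lower coordinates -/
def ea (S : Set R) (c : Nd R) : F.GG S →* P where
  toFun g := g.1.1.1 c
  map_one' := rfl
  map_mul' _ _ := rfl

/-- upper coordinates -/
def ey (S : Set R) (c : Nd R) : F.GG S →* Γ where
  toFun g := g.1.1.2 c
  map_one' := rfl
  map_mul' _ _ := rfl

variable {F} {S : Set R}

lemma mem_W {m : ℕ} {g : F.GG S} : g ∈ F.W S m ↔
    (∀ c, F.nlo c < m → F.ea S c g = 1) ∧ ∀ c, F.nhi c < m → F.ey S c g = 1 := Iff.rfl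

lemma W_normal (m : ℕ) : (F.W S m).Normal := (F.V_normal m).subgroupOf _

lemma e_not {c : Nd R} (h : ¬ F.Ok S c) (g : F.GG S) : F.ea S c g = 1 ∧ F.ey S c g = 1 :=
  (not_and_or.1 h).elim (g.2 c) (g.1.2.2.2.1 c)

lemma e_rel (c : Nd R) (g : F.GG S) :
    F.ea S c g = F.π (F.ey S c g) * ∏ᶠ a, F.ea S (c.1, a :: c.2) g := g.1.2.2.2.2 c

lemma e_step {c : Nd R} {g : F.GG S} (h1 : F.π (F.ey S c g) = 1)
    (h2 : ∀ a : LL × ℕ, a.1 < F.nlay c → F.ea S (c.1, a :: c.2) g = 1) : F.ea S c g = 1 := by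
  rw [e_rel, h1, one_mul]
  refine finprod_eq_one_of_forall_eq_one fun a => ?_
  by_cases h : a.1 < F.nlay c
  · exact h2 a h
  · exact (e_not (c := (c.1, a :: c.2)) (fun h' => h h'.2.1) g).1

lemma val_suffix {r : R} {ks ls : List (LL × ℕ)} (h : ks <:+ ls) (hl : F.val r ls) :
    F.val r ks := by
  induction ls with
  | nil => rw [List.suffix_nil.1 h]; trivial
  | cons a ls ih =>
    rcases List.suffix_cons_iff.1 h with rfl | h
    · exact hl
    · exact ih h hl.2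

lemma nlay_le {r : R} : ∀ {ks : List (LL × ℕ)}, F.val r ks → F.nlay (r, ks) ≤ F.lay r
  | [], _ => le_rfl
  | _ :: _, h => h.1.le.trans (nlay_le h.2)

open Classical in
lemma fin_anc (c : Nd R) (x : P) :
    (Function.mulSupport fun e : Nd R => if e.1 = c.1 ∧ e.2 <:+ c.2 then x else 1).Finite := by
  refine ((Set.finite_singleton c.1).prod c.2.tails.finite_toSet).subset fun a ha => ?_
  have h : a.1 = c.1 ∧ a.2 <:+ c.2 := by
    by_contra h
    exact ha (if_neg h)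
  exact ⟨h.1, (List.mem_tails _ _).2 h.2⟩

open Classical in
lemma fin_self (c : Nd R) (q : Γ) :
    (Function.mulSupport fun e : Nd R => if e = c then q else 1).Finite :=
  (Set.finite_singleton c).subset fun a ha => by
    by_contra h
    exact ha (if_neg h)

open Classical in
/-- the generators -/
noncomputable def gen (c : {c // F.Ok S c}) : Γ →* F.GG S where
  toFun q := ⟨⟨(fun e => if e.1 = c.1.1 ∧ e.2 <:+ c.1.2 then F.π q else 1,
    fun e => if e = c then q else 1), fun _ => (fin_anc c.1 _).subset fun _ h => h.2,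
    fun _ => (fin_self c.1 q).subset fun _ h => h.2,
    fun e he => ⟨if_neg fun h : e.1 = c.1.1 ∧ e.2 <:+ c.1.2 => he (h.1 ▸ val_suffix h.2 c.2.2),
      if_neg fun h : e = c => he (h ▸ c.2.2)⟩, by
    rintro ⟨r, ks⟩
    obtain ⟨⟨r', cs⟩, -⟩ := c
    simp only
    by_cases h : ∃ a, r = r' ∧ a :: ks <:+ cs
    · obtain ⟨a, h1, h2⟩ := h
      rw [finprod_eq_single _ a fun b hb => if_neg fun h3 => hb ?_,
        if_pos ⟨h1, (List.suffix_cons a ks).trans h2⟩, if_pos (And.intro h1 h2), if_neg, map_one,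
        one_mul]
      · intro e
        have := h2.length_le
        rw [show cs = ks from (Prod.ext_iff.1 e).2.symm] at this
        simp at this
      · exact List.head_eq_of_cons_eq
          ((List.suffix_of_suffix_length_le h3.2 h2 le_rfl).eq_of_length rfl)
    · rw [finprod_eq_one_of_forall_eq_one fun a => if_neg fun h' => h ⟨a, h'⟩, mul_one]
      by_cases e : (r, ks) = (r', cs)
      · rw [if_pos e, if_pos ⟨(Prod.ext_iff.1 e).1, by rw [show ks = cs from (Prod.ext_iff.1 e).2]⟩]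
      · rw [if_neg e, map_one, if_neg]
        rintro ⟨rfl, t, rfl⟩
        rcases t.eq_nil_or_concat with rfl | ⟨t, a, rfl⟩
        · exact e rfl
        · exact h ⟨a, rfl, t, by simp⟩⟩,
    fun e he => ⟨if_neg fun h : e.1 = c.1.1 ∧ e.2 <:+ c.1.2 => he (h.1 ▸ c.2.1),
      if_neg fun h : e = c => he (h ▸ c.2.1)⟩⟩
  map_one' := Subtype.ext (Subtype.ext (Prod.ext (funext fun e => by simp) (funext fun e => by simp)))
  map_mul' a b := Subtype.ext (Subtype.ext (Prod.ext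
    (funext fun e => by simp only [Subgroup.coe_mul, Prod.fst_mul, Pi.mul_apply]; split_ifs <;> simp)
    (funext fun e => by simp only [Subgroup.coe_mul, Prod.snd_mul, Pi.mul_apply]; split_ifs <;> simp)))

open Classical in
lemma ey_gen (c : {c // F.Ok S c}) (q : Γ) (e : Nd R) :
    F.ey S e (gen c q) = if e = c then q else 1 := rfl

open Classical in
lemma ea_gen (c : {c // F.Ok S c}) (q : Γ) (e : Nd R) :
    F.ea S e (gen c q) = if e.1 = c.1.1 ∧ e.2 <:+ c.1.2 then F.π q else 1 := rfl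

lemma ea_gen_self (c : {c // F.Ok S c}) (q : Γ) : F.ea S c (gen c q) = F.π q :=
  if_pos ⟨rfl, List.suffix_refl _⟩

lemma ea_gen_ne {c : {c // F.Ok S c}} (q : Γ) {e : Nd R} (h1 : e ≠ c)
    (h2 : F.nlo c < F.nhi e ∨ c.1.2 = []) : F.ea S e (gen c q) = 1 := by
  obtain ⟨⟨r, cs⟩, hc⟩ := c
  obtain ⟨r', ks⟩ := e
  refine if_neg ?_
  rintro ⟨rfl, h⟩
  rcases cs with _ | ⟨a, cs⟩
  · exact h1 (Prod.ext rfl (List.suffix_nil.1 h))
  · rcases List.suffix_cons_iff.1 h with h | ⟨t, rfl⟩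
    · exact h1 (Prod.ext rfl h)
    · simp [nlo, nhi] at h2

lemma gen_D0 (c : {c // F.Ok S c}) (q : Γ) {m : ℕ}
    (h : m ≤ F.nhi c ∨ (∀ k : Γ, ⁅q, k⁆ = 1) ∧ q ^ F.p = 1) : gen c q ∈ D0 F.p (F.W S m) := by
  refine mem_D0 (fun k => ⟨fun e _ => ?_, fun e he => ?_⟩) ⟨fun e _ => ?_, fun e he => ?_⟩
  · exact (map_commutatorElement (F.ea S e) _ k).trans (commutatorElement_eq_one_iff_mul_comm.2
      (mul_comm _ _))
  · refine (map_commutatorElement (F.ey S e) _ k).trans ?_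
    rw [ey_gen]
    split_ifs with h1
    · exact (h.resolve_left fun h2 => absurd (h1 ▸ he : F.nhi c < m) (not_lt.2 h2)).1 _
    · exact commutatorElement_one_left _
  · exact (map_pow (F.ea S e) _ _).trans (F.hP _)
  · refine (map_pow (F.ey S e) _ _).trans ?_
    rw [ey_gen]
    split_ifs with h1
    · exact (h.resolve_left fun h2 => absurd (h1 ▸ he : F.nhi c < m) (not_lt.2 h2)).2
    · exact one_pow _

lemma gen_bot (c : {c // F.Ok S c}) (m : ℕ) : D0 F.p ⊥ ≤ (D0 F.p (F.W S m)).comap (gen c) := by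
  refine (Subgroup.closure_le _).2 ?_
  rintro g (h | ⟨a, b, rfl⟩)
  · exact gen_D0 c g (Or.inr h)
  · exact Subgroup.mem_comap.2 (map_commutatorElement (gen c) a b ▸ comm_D0 _ (gen c a) (gen c b))

lemma pi_bot : D0 F.p ⊥ ≤ F.π.ker := by
  refine (Subgroup.closure_le _).2 ?_
  rintro g (h | ⟨a, b, rfl⟩)
  · exact F.hZ g h.1 h.2
  · exact (map_commutatorElement F.π a b).trans (commutatorElement_eq_one_iff_mul_comm.2
      (mul_comm _ _))

lemma Dv_y {ρ : LL} {m : ℕ} {g : F.GG S} (hg : g ∈ Dv F.p (F.W S) ρ m) {c : Nd R}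
    (hc : F.nhi c < m) : F.ey S c g ∈ D0 F.p ⊥ := by
  by_cases h : F.Ok S c
  · exact map_D0 (F.ey S c) (fun q => ⟨gen ⟨c, h⟩ q, if_pos rfl⟩) (U := F.W S m)
      (fun k hk => (mem_W.1 hk).2 c hc) (mem_Dv.1 hg).1
  · exact (e_not h g).2 ▸ Subgroup.one_mem _

lemma Dv_a (ρ : LL) : ∀ {m : ℕ} {g : F.GG S}, g ∈ Dv F.p (F.W S) ρ m → ∀ c : Nd R,
    F.nlo c < m → F.nlay c < ρ → F.ea S c g = 1 := by
  induction ρ using WellFoundedLT.induction with
  | ind ρ ih =>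
    intro m g hg c h1 h2
    exact (sup_le (c := (F.ea S c).ker) (fun a ha => e_step (pi_bot (Dv_y ha (Nat.lt_succ_self _)))
      fun x hx => ih _ h2 ha (c.1, x :: c.2) (Nat.lt_succ_self _) hx) fun b hb => (mem_W.1 hb).1 c h1)
      ((mem_Dv.1 hg).2 _ h2 (F.nhi c + 1))

lemma Dv_top {ρ : LL} {m : ℕ} {g : F.GG S} (hg : g ∈ Dv F.p (F.W S) ρ m) {c : Nd R}
    (h1 : F.nhi c < m) (h2 : F.nlay c ≤ ρ) : F.ea S c g = 1 :=
  e_step (pi_bot (Dv_y hg h1)) fun x hx => Dv_a ρ hg (c.1, x :: c.2) h1 (hx.trans_le h2)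

lemma gen_Dv (ρ : LL) : ∀ (c : {c // F.Ok S c}) (q : Γ) (m : ℕ), ρ ≤ F.nlay c → m ≤ F.nhi c →
    gen c q ∈ Dv F.p (F.W S) ρ m := by
  classical
  induction ρ using WellFoundedLT.induction with
  | ind ρ ih =>
    intro c q m h1 h2
    refine mem_Dv.2 ⟨gen_D0 c q (Or.inl h2), fun β hβ j => ?_⟩
    let d : {c // F.Ok S c} := ⟨(c.1.1, (β, j) :: c.1.2), c.2.1, hβ.trans_le h1, c.2.2⟩
    have hd : F.nhi d = F.nhi c + j := F.nhi_cons _ _ _
    rw [← mul_inv_cancel_left (gen d q) (gen c q)]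
    refine Subgroup.mul_mem_sup (ih β hβ d q j le_rfl (by omega))
      (mem_W.2 ⟨fun e he => ?_, fun e he => ?_⟩)
    · rw [map_mul, map_inv, ea_gen, ea_gen, inv_mul_eq_one]
      refine if_congr (and_congr_right fun h3 => List.suffix_cons_iff.trans (or_iff_right ?_))
        rfl rfl
      intro h4
      obtain rfl : e = d.1 := Prod.ext h3 h4
      exact absurd (he : F.nhi c < m) (not_lt.2 h2)
    · rw [map_mul, map_inv, ey_gen, ey_gen, if_neg, if_neg, inv_mul_cancel]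
      · rintro rfl
        omega
      · rintro rfl
        omega

lemma van {m : ℕ} {u : F.GG S} (h1 : ∀ e, F.nhi e < m → F.ey S e u = 1)
    (h2 : ∀ e, F.nlo e < m → m ≤ F.nhi e → F.ea S e u = 1) : u ∈ F.W S m := by
  have key : ∀ ρ : LL, ∀ e, F.nlay e = ρ → F.nlo e < m → F.ea S e u = 1 := by
    intro ρ
    induction ρ using WellFoundedLT.induction with
    | ind ρ ih =>
      intro e he h3
      rcases le_or_gt m (F.nhi e) with h | h
      · exact h2 e h3 h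
      · exact e_step (by rw [h1 e h, map_one]) fun x hx =>
          ih x.1 (he ▸ hx) (e.1, x :: e.2) rfl h
  exact ⟨fun e he => key _ e rfl he, h1⟩

open Classical in
lemma exists_prod {T : Subgroup (F.GG S)} (q : {c // F.Ok S c} → Γ) (A : Finset {c // F.Ok S c})
    (h : ∀ c ∈ A, gen c (q c) ∈ T) : ∃ u ∈ T, (∀ e, F.ea S e u = ∏ c ∈ A, F.ea S e (gen c (q c))) ∧
      ∀ e : {c // F.Ok S c}, F.ey S e u = if e ∈ A then q e else 1 := by
  induction A using Finset.induction_on with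
  | empty => exact ⟨1, T.one_mem, by simp, by simp⟩
  | insert c A hc ih =>
    obtain ⟨u, u1, u2, u3⟩ := ih fun e he => h e (Finset.mem_insert_of_mem he)
    refine ⟨gen c (q c) * u, T.mul_mem (h c (Finset.mem_insert_self _ _)) u1,
      fun e => by rw [map_mul, u2, Finset.prod_insert hc], fun e => ?_⟩
    rw [map_mul, u3, ey_gen]
    by_cases k : e = c
    · simp [k, hc]
    · simp [k, Subtype.val_inj]

lemma gen_mem {T : Subgroup (F.GG S)} {m : ℕ} {g : F.GG S} (h0 : F.W S m ≤ T)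
    (h1 : ∀ c : {c // F.Ok S c}, F.nhi c < m → gen c (F.ey S c g) ∈ T)
    (h2 : ∀ (c : {c // F.Ok S c}) q, F.nlo c < m → m ≤ F.nhi c → F.ea S c g ≠ 1 →
      gen c q ∈ T) : g ∈ T := by
  classical
  choose rt hrt using F.surj
  let qq : Nd R → Γ := fun c => if F.nhi c < m then F.ey S c g else rt (F.ea S c g)
  have hf : {c : {c // F.Ok S c} | F.nhi c < m ∧ F.ey S c g ≠ 1 ∨
      F.nlo c < m ∧ m ≤ F.nhi c ∧ F.ea S c g ≠ 1}.Finite :=
    (((g.1.2.2.1 m).preimage Subtype.val_injective.injOn).union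
      ((g.1.2.1 m).preimage Subtype.val_injective.injOn)).subset
      fun c hc => hc.imp id fun h => ⟨h.1, h.2.2⟩
  obtain ⟨u, u1, u2, u3⟩ := exists_prod (T := T) (fun c => qq c) hf.toFinset fun c hc => by
    rcases hf.mem_toFinset.1 hc with h | h
    · rw [show qq c = _ from if_pos h.1]
      exact h1 c h.1
    · exact h2 c _ h.1 h.2.1 h.2.2
  rw [← mul_inv_cancel_left u g]
  refine T.mul_mem u1 (h0 (van (fun e he => ?_) fun e he he' => ?_))
  · by_cases hok : F.Ok S e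
    swap
    · exact (e_not hok _).2
    rw [map_mul, map_inv, u3 ⟨e, hok⟩, inv_mul_eq_one]
    split_ifs with h
    · exact if_pos he
    · by_contra h'
      exact h (hf.mem_toFinset.2 (Or.inl ⟨he, fun k => h' k.symm⟩))
  · by_cases hok : F.Ok S e
    swap
    · exact (e_not hok _).1
    have e1 : F.ea S e (gen ⟨e, hok⟩ (qq e)) = F.ea S e g := by
      rw [ea_gen_self ⟨e, hok⟩, show qq e = rt _ from if_neg (not_lt.2 he'), hrt]
    rw [map_mul, map_inv, u2, Finset.prod_eq_single ⟨e, hok⟩, e1, inv_mul_cancel]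
    · intro b hb hb'
      refine ea_gen_ne _ (fun h => hb' (Subtype.ext h.symm)) (Or.inl ?_)
      have := F.nlo_le b
      rcases hf.mem_toFinset.1 hb with h | h <;> omega
    · intro h
      rw [e1]
      by_contra h'
      exact h (hf.mem_toFinset.2 (Or.inr ⟨he, he', h'⟩))

end Forest

end Pool.Agent.P.MP_52b1ec_lc.NC
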